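import Pool.Agent.H51.EF.Van

/-!
# Det : the determinant of two consecutive approximants (140 lines)

Let `B m`, `A m` be the polynomials over `ℚ` with the coefficients `bq m j`, `cq m j` (`j ≤ m`) and
`f` the power series with the coefficients `fq i`. `A m - f * B m` has no terms of degree `≤ 2 m`
(for `k ≤ m` the coefficient of `f * B m` is `cq m k` by definition, for `m < k ≤ 2 m` it is
`cq m k = 0`, `cq_zero`). Hence
`A m * B (m+1) - A (m+1) * B m = (A m - f B m) * B (m+1) - (A (m+1) - f B (m+1)) * B m`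
has no terms of degree `≤ 2 m`; it is a polynomial of degree `≤ 2 m + 1`; its top coefficient is
`cq m m * bq (m+1) (m+1) - cq (m+1) (m+1) * bq m m`.
With `x = 1/4`, `P = ch (m+x) m`, `Q = ch (m-x) m` (both nonzero, products of positive numbers):
`ch (m+1-x) (m+1) = Q (m+1-x)/(m+1)`, `ch (m+1+x) (m+1) = P (m+1+x)/(m+1)` (the factor `m+1∓x` is the first
one), so the top coefficient is `± 8^(2m+1) P Q ((m+1-x) - (m+1+x))/(m+1)`, not zero
(`(2 m - m).choose m = 1`).
-/

namespace H51.EF

open Polynomial in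
/-- the polynomial with the coefficients `a j`, `j ≤ m` -/
private noncomputable def dpol (m : ℕ) (a : ℕ → ℚ) : ℚ[X] :=
  ∑ j ∈ Finset.range (m + 1), Polynomial.monomial j (a j)

private theorem dpol_coeff (m : ℕ) (a : ℕ → ℚ) (k : ℕ) :
    (dpol m a).coeff k = if k ≤ m then a k else 0 := by
  unfold dpol
  rw [Polynomial.finsetSum_coeff]
  simp only [Polynomial.coeff_monomial]
  rw [Finset.sum_ite_eq' (Finset.range (m + 1)) k]
  refine if_congr ?_ rfl rfl
  rw [Finset.mem_range, Nat.lt_succ_iff]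

private theorem dpol_deg (m : ℕ) (a : ℕ → ℚ) : (dpol m a).natDegree ≤ m := by
  rw [Polynomial.natDegree_le_iff_coeff_eq_zero]
  intro k hk
  rw [dpol_coeff, if_neg (by omega)]

private theorem dpol_eval (m : ℕ) (a : ℕ → ℚ) (z : ℝ) :
    Polynomial.aeval z (dpol m a) = ∑ j ∈ Finset.range (m + 1), (a j : ℝ) * z ^ j := by
  unfold dpol
  rw [map_sum]
  refine Finset.sum_congr rfl fun j _ => ?_
  rw [Polynomial.aeval_monomial]
  rfl

private theorem dvd_approx (m : ℕ) : (PowerSeries.X : PowerSeries ℚ) ^ (2 * m + 1) ∣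
    (dpol m (cq m) : PowerSeries ℚ) - PowerSeries.mk fq * (dpol m (bq m) : PowerSeries ℚ) := by
  rw [PowerSeries.X_pow_dvd_iff]
  intro k hk
  have h1 : PowerSeries.coeff k (PowerSeries.mk fq * (dpol m (bq m) : PowerSeries ℚ)) = cq m k := by
    rw [mul_comm, PowerSeries.coeff_mul]
    simp only [PowerSeries.coeff_mk, Polynomial.coeff_coe, dpol_coeff]
    rw [Finset.Nat.sum_antidiagonal_eq_sum_range_succ
      (fun i j => (if i ≤ m then bq m i else 0) * fq j)]
    rfl
  rw [map_sub, h1, Polynomial.coeff_coe, dpol_coeff]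
  by_cases h2 : k ≤ m
  · rw [if_pos h2, sub_self]
  · rw [if_neg h2, cq_zero m k (by omega) (by omega), sub_zero]

/-- `ch (m + x) m` -/
private noncomputable def dR (x : ℚ) (m : ℕ) : ℚ := Ring.choose ((m : ℚ) + x) m

private theorem dR_succ (x : ℚ) (m : ℕ) :
    ((m : ℚ) + 1) * dR x (m + 1) = ((m : ℚ) + 1 + x) * dR x m := by
  have h := Ring.choose_smul_choose (((m + 1 : ℕ) : ℚ) + x) (n := m + 1) (k := 1) (by omega)
  rw [Nat.choose_one_right, nsmul_eq_mul, Ring.choose_one_right, Nat.add_sub_cancel] at h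
  unfold dR
  have e : ((m + 1 : ℕ) : ℚ) + x - ((1 : ℕ) : ℚ) = (m : ℚ) + x := by
    push_cast
    ring
  rw [e] at h
  push_cast at h ⊢
  exact h

private theorem dR_ne (x : ℚ) (hx : -1 < x) (m : ℕ) : dR x m ≠ 0 := by
  induction m with
  | zero =>
    unfold dR
    rw [Ring.choose_zero_right]
    exact one_ne_zero
  | succ m ih =>
    intro h0
    have h1 := dR_succ x m
    rw [h0, mul_zero] at h1
    have hm : (0 : ℚ) ≤ m := Nat.cast_nonneg m
    rcases mul_eq_zero.1 h1.symm with h2 | h2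
    · linarith
    · exact ih h2

private theorem bq_top (m : ℕ) : bq m m = 8 ^ m * ((-1) ^ m * dR (-(1 / 4)) m) := by
  unfold bq dR
  have e1 : 2 * m - m = m := by omega
  rw [e1, Nat.choose_self, Nat.cast_one, mul_one, sub_eq_add_neg]

theorem det_eq (m : ℕ) : ∃ γ : ℚ, γ ≠ 0 ∧ ∀ z : ℝ,
    Aev m z * Bev (m + 1) z - Aev (m + 1) z * Bev m z = (γ : ℝ) * z ^ (2 * m + 1) := by
  set A := dpol m (cq m) with hA
  set B := dpol m (bq m) with hB
  set A' := dpol (m + 1) (cq (m + 1)) with hA'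
  set B' := dpol (m + 1) (bq (m + 1)) with hB'
  set γ : ℚ := cq m m * bq (m + 1) (m + 1) - cq (m + 1) (m + 1) * bq m m with hγ
  have hdvd : (PowerSeries.X : PowerSeries ℚ) ^ (2 * m + 1) ∣
      ((A * B' - A' * B : Polynomial ℚ) : PowerSeries ℚ) := by
    have e1 : ((A * B' - A' * B : Polynomial ℚ) : PowerSeries ℚ) =
        ((A : PowerSeries ℚ) - PowerSeries.mk fq * (B : PowerSeries ℚ)) * (B' : PowerSeries ℚ) -
        ((A' : PowerSeries ℚ) - PowerSeries.mk fq * (B' : PowerSeries ℚ)) *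
          (B : PowerSeries ℚ) := by
      push_cast
      ring
    rw [e1]
    refine dvd_sub (Dvd.dvd.mul_right (dvd_approx m) _) (Dvd.dvd.mul_right ?_ _)
    exact (pow_dvd_pow _ (by omega)).trans (dvd_approx (m + 1))
  have hlow : ∀ k < 2 * m + 1, (A * B' - A' * B).coeff k = 0 := by
    intro k hk
    have := (PowerSeries.X_pow_dvd_iff.1 hdvd) k hk
    rwa [Polynomial.coeff_coe] at this
  have htop : (A * B' - A' * B).coeff (2 * m + 1) = γ := by
    rw [Polynomial.coeff_sub]
    have h1 : (A * B').coeff (2 * m + 1) = cq m m * bq (m + 1) (m + 1) := by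
      have e : 2 * m + 1 = m + (m + 1) := by omega
      rw [e, Polynomial.coeff_mul_add_eq_of_natDegree_le (dpol_deg m _) (dpol_deg (m + 1) _),
        dpol_coeff, dpol_coeff, if_pos le_rfl, if_pos le_rfl]
    have h2 : (A' * B).coeff (2 * m + 1) = cq (m + 1) (m + 1) * bq m m := by
      have e : 2 * m + 1 = (m + 1) + m := by omega
      rw [e, Polynomial.coeff_mul_add_eq_of_natDegree_le (dpol_deg (m + 1) _) (dpol_deg m _),
        dpol_coeff, dpol_coeff, if_pos le_rfl, if_pos le_rfl]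
    rw [h1, h2]
  have hhigh : ∀ k, 2 * m + 1 < k → (A * B' - A' * B).coeff k = 0 := by
    intro k hk
    refine Polynomial.coeff_eq_zero_of_natDegree_lt (lt_of_le_of_lt ?_ hk)
    refine (Polynomial.natDegree_sub_le _ _).trans (max_le ?_ ?_)
    · refine Polynomial.natDegree_mul_le.trans ?_
      have h1 := dpol_deg m (cq m)
      have h2 := dpol_deg (m + 1) (bq (m + 1))
      rw [← hA] at h1
      rw [← hB'] at h2
      omega
    · refine Polynomial.natDegree_mul_le.trans ?_
      have h1 := dpol_deg (m + 1) (cq (m + 1))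
      have h2 := dpol_deg m (bq m)
      rw [← hA'] at h1
      rw [← hB] at h2
      omega
  have hP : A * B' - A' * B = Polynomial.monomial (2 * m + 1) γ := by
    ext k
    rw [Polynomial.coeff_monomial]
    rcases lt_trichotomy k (2 * m + 1) with h | h | h
    · rw [hlow k h, if_neg (by omega)]
    · rw [h, htop, if_pos rfl]
    · rw [hhigh k h, if_neg (by omega)]
  refine ⟨γ, ?_, ?_⟩
  · have hm : (0 : ℚ) ≤ m := Nat.cast_nonneg m
    have e1 := dR_succ (1 / 4) m
    have e2 := dR_succ (-(1 / 4)) m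
    have h1 : cq m m = 8 ^ m * ((-1) ^ m * dR (1 / 4) m) := cq_top m
    have h2 : cq (m + 1) (m + 1) = 8 ^ (m + 1) * ((-1) ^ (m + 1) * dR (1 / 4) (m + 1)) :=
      cq_top (m + 1)
    have e3 : ((m : ℚ) + 1) * γ = 8 ^ (2 * m + 1) * (1 / 2) * dR (1 / 4) m * dR (-(1 / 4)) m := by
      have e4 : ((m : ℚ) + 1) * γ = 8 ^ m * 8 ^ (m + 1) * ((-1) ^ m * (-1) ^ (m + 1)) *
          (dR (1 / 4) m * (((m : ℚ) + 1) * dR (-(1 / 4)) (m + 1)) -
            (((m : ℚ) + 1) * dR (1 / 4) (m + 1)) * dR (-(1 / 4)) m) := by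
        rw [hγ, h1, h2, bq_top, bq_top]
        ring
      rw [e4, e1, e2]
      have e5 : (-1 : ℚ) ^ m * (-1) ^ (m + 1) = -1 := by
        rw [← pow_add]
        have : m + (m + 1) = 2 * m + 1 := by ring
        rw [this, pow_succ, pow_mul]
        norm_num
      have e6 : (8 : ℚ) ^ m * 8 ^ (m + 1) = 8 ^ (2 * m + 1) := by
        rw [← pow_add]
        congr 1
        ring
      rw [e5, e6]
      ring
    intro h0
    rw [h0, mul_zero] at e3
    have h3 := dR_ne (1 / 4) (by norm_num) m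
    have h4 := dR_ne (-(1 / 4)) (by norm_num) m
    have h5 : (8 : ℚ) ^ (2 * m + 1) * (1 / 2) * dR (1 / 4) m * dR (-(1 / 4)) m ≠ 0 := by
      refine mul_ne_zero (mul_ne_zero (mul_ne_zero ?_ ?_) h3) h4
      · positivity
      · norm_num
    exact h5 e3.symm
  · intro z
    have h1 : Polynomial.aeval z (A * B' - A' * B) =
        Polynomial.aeval z (Polynomial.monomial (2 * m + 1) γ) := by rw [hP]
    rw [map_sub, map_mul, map_mul, Polynomial.aeval_monomial, hA, hB, hA', hB', dpol_eval,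
      dpol_eval, dpol_eval, dpol_eval] at h1
    exact h1

end H51.EF
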