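import Pool.Agent.H51.EF.Defs

/-!
# BinB : bounds for the coefficients (100 lines)

`fq_le`: `|choose (1/4) (i+1)| = |choose (1/4) i| * |1/4 - i| / (i+1) ≤ |choose (1/4) i|`
(`choose x (i+1) * (i+1) = choose x i * (x - i)`, from `Ring.choose_eq_smul` and `descPochhammer_succ_right`, or
from `Ring.choose_smul_choose`).
`bq_le`: for `j ≤ m` all factors of `choose (m - 1/4) j = Π_{i<j} (m - 1/4 - i) / j !` lie between `0` and
`m - i`, so `0 ≤ choose (m - 1/4) j ≤ m.choose j ≤ 2 ^ m`; `(2 m - j).choose m ≤ 2 ^ (2 m)`; so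
`|bq m j| ≤ 8 ^ m * 4 ^ m * 2 ^ m = 64 ^ m`.
`cq_le`: `|cq m k| ≤ ∑_{j ≤ m} |bq m j| ≤ (m + 1) * 64 ^ m ≤ 128 ^ m`.
-/

namespace H51.EF

private theorem BinB_succ (x : ℚ) (i : ℕ) :
    Ring.choose x (i + 1) * (i + 1) = Ring.choose x i * (x - i) := by
  have h := Ring.choose_smul_choose x (n := i + 1) (k := i) (Nat.le_succ i)
  have h1 : i + 1 - i = 1 := by omega
  rw [h1, Ring.choose_one_right] at h
  have h2 : (i + 1).choose i = i + 1 := by
    simp
  rw [h2, nsmul_eq_mul] at h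
  push_cast at h
  rw [← h]; ring

theorem fq_le (i : ℕ) : |fq i| ≤ 1 := by
  have key : ∀ i : ℕ, |Ring.choose (1 / 4 : ℚ) i| ≤ 1 := by
    intro i
    induction i with
    | zero => simp
    | succ i ih =>
      have h := BinB_succ (1 / 4) i
      have hpos : (0 : ℚ) < (i : ℚ) + 1 := by positivity
      have h2 : |Ring.choose (1 / 4 : ℚ) (i + 1)| * ((i : ℚ) + 1)
          = |Ring.choose (1 / 4 : ℚ) i| * |1 / 4 - (i : ℚ)| := by
        rw [← abs_mul, ← h, abs_mul, abs_of_pos hpos]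
      have h3 : |1 / 4 - (i : ℚ)| ≤ (i : ℚ) + 1 := by
        rw [abs_le]
        have : (0 : ℚ) ≤ i := Nat.cast_nonneg i
        constructor <;> linarith
      have h4 : |Ring.choose (1 / 4 : ℚ) (i + 1)| * ((i : ℚ) + 1) ≤ 1 * ((i : ℚ) + 1) := by
        rw [h2]
        exact mul_le_mul ih h3 (abs_nonneg _) zero_le_one
      exact le_of_mul_le_mul_right h4 hpos
  unfold fq
  rw [abs_mul, abs_pow, abs_neg, abs_one, one_pow, one_mul]
  exact key i

private theorem BinB_bd (m j : ℕ) (h : j ≤ m) :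
    0 ≤ Ring.choose ((m : ℚ) - 1 / 4) j ∧ Ring.choose ((m : ℚ) - 1 / 4) j ≤ (m.choose j : ℚ) := by
  induction j with
  | zero => simp
  | succ j ih =>
    obtain ⟨h1, h2⟩ := ih (Nat.le_of_succ_le h)
    have hs := BinB_succ ((m : ℚ) - 1 / 4) j
    have hn : (m.choose (j + 1) : ℚ) * ((j : ℚ) + 1) = (m.choose j : ℚ) * ((m : ℚ) - j) := by
      have := Nat.choose_succ_right_eq m j
      have h3 : (((m.choose (j + 1) * (j + 1) : ℕ)) : ℚ) = ((m.choose j * (m - j) : ℕ) : ℚ) := by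
        rw [this]
      push_cast [Nat.cast_sub (Nat.le_of_succ_le h)] at h3
      exact h3
    have hpos : (0 : ℚ) < (j : ℚ) + 1 := by positivity
    have hjm : (j : ℚ) + 1 ≤ m := by exact_mod_cast h
    constructor
    · have : 0 ≤ Ring.choose ((m : ℚ) - 1 / 4) (j + 1) * ((j : ℚ) + 1) := by
        rw [hs]
        exact mul_nonneg h1 (by linarith)
      exact nonneg_of_mul_nonneg_left this hpos
    · have : Ring.choose ((m : ℚ) - 1 / 4) (j + 1) * ((j : ℚ) + 1)
          ≤ (m.choose (j + 1) : ℚ) * ((j : ℚ) + 1) := by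
        rw [hs, hn]
        exact mul_le_mul h2 (by linarith) (by linarith) (Nat.cast_nonneg _)
      exact le_of_mul_le_mul_right this hpos

theorem bq_le (m j : ℕ) (h : j ≤ m) : |bq m j| ≤ 64 ^ m := by
  obtain ⟨h1, h2⟩ := BinB_bd m j h
  have h3 : Ring.choose ((m : ℚ) - 1 / 4) j ≤ 2 ^ m :=
    h2.trans (by exact_mod_cast Nat.choose_le_two_pow m j)
  have h4 : ((2 * m - j).choose m : ℚ) ≤ 4 ^ m := by
    have h5 : (2 * m - j).choose m ≤ 2 ^ (2 * m) :=
      (Nat.choose_le_two_pow _ _).trans (Nat.pow_le_pow_right (by norm_num) (by omega))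
    have h6 : (2 : ℕ) ^ (2 * m) = 4 ^ m := by rw [pow_mul]; norm_num
    rw [h6] at h5
    exact_mod_cast h5
  unfold bq
  rw [abs_mul, abs_mul, abs_mul, abs_pow, abs_pow, abs_neg, abs_one, one_pow, one_mul,
    abs_of_nonneg h1, abs_of_nonneg (show (0 : ℚ) ≤ 8 by norm_num),
    abs_of_nonneg (Nat.cast_nonneg _)]
  have h64 : (64 : ℚ) ^ m = 8 ^ m * (4 ^ m * 2 ^ m) := by
    rw [← mul_pow, ← mul_pow]; norm_num
  rw [h64]
  exact mul_le_mul_of_nonneg_left (mul_le_mul h4 h3 h1 (by positivity)) (by positivity)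

theorem cq_le (m k : ℕ) : |cq m k| ≤ 128 ^ m := by
  unfold cq
  have h1 : |∑ j ∈ Finset.range (k + 1), (if j ≤ m then bq m j else 0) * fq (k - j)|
      ≤ ∑ j ∈ Finset.range (k + 1), (if j ∈ Finset.range (m + 1) then (64 : ℚ) ^ m else 0) := by
    refine (Finset.abs_sum_le_sum_abs _ _).trans (Finset.sum_le_sum fun j _ => ?_)
    rw [abs_mul]
    by_cases hj : j ≤ m
    · rw [if_pos hj, if_pos (Finset.mem_range.2 (Nat.lt_succ_of_le hj))]
      calc |bq m j| * |fq (k - j)| ≤ 64 ^ m * 1 :=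
            mul_le_mul (bq_le m j hj) (fq_le _) (abs_nonneg _) (by positivity)
        _ = 64 ^ m := mul_one _
    · rw [if_neg hj, if_neg (fun h => hj (Nat.lt_succ_iff.1 (Finset.mem_range.1 h)))]
      simp
  refine h1.trans ?_
  rw [← Finset.sum_filter, Finset.sum_const, nsmul_eq_mul]
  have h2 : (((Finset.range (k + 1)).filter (fun j => j ∈ Finset.range (m + 1))).card : ℚ) ≤ 2 ^ m := by
    have h3 : ((Finset.range (k + 1)).filter (fun j => j ∈ Finset.range (m + 1))).card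
        ≤ (Finset.range (m + 1)).card := by
      apply Finset.card_le_card
      intro x hx
      exact (Finset.mem_filter.1 hx).2
    rw [Finset.card_range] at h3
    have h4 : m + 1 ≤ 2 ^ m := Nat.lt_two_pow_self
    exact_mod_cast h3.trans h4
  have h128 : (128 : ℚ) ^ m = 2 ^ m * 64 ^ m := by rw [← mul_pow]; norm_num
  rw [h128]
  exact mul_le_mul_of_nonneg_right h2 (by positivity)

end H51.EF
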