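import Pool.Agent.H51.EF.Van
import Pool.Agent.H51.EF.BinB

/-!
# Rem : the remainder (140 lines)

`hasSum_root`: `(1 - z) ^ (1/4) = ∑ fq k z^k` for real `|z| < 1`: from
`Complex.one_add_cpow_hasFPowerSeriesOnBall_zero` at `-z` (real part; `Complex.ofReal_cpow`), or directly:
`g z = ∑ fq k z^k` converges absolutely (`fq_le`), its fourth power is `1 - z` by Cauchy products and
`Ring.add_choose_eq`, and it is positive near ... (continuity and `g ≠ 0`). The first way is short.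
`rem_le`: `(1-z)^(1/4) * Bev m z = ∑_k cq m k z^k` (Cauchy product of a finite and an absolutely
convergent series, e.g. `HasSum.mul_left` for each of the finitely many `j` and a shift of the index), so
`Aev m z - (1-z)^(1/4) Bev m z = - ∑_{k > 2m} cq m k z^k` (`cq_zero`), which is at most
`128^m |z|^(2m+1) / (1 - |z|) ≤ 2 * 128^m |z|^(2m+1)` (`cq_le`).
`Bev_le`: `(m+1) * 64^m ≤ 128^m`.
-/

namespace H51.EF

theorem hasSum_root (z : ℝ) (hz : |z| < 1) :
    HasSum (fun k : ℕ => (fq k : ℝ) * z ^ k) ((1 - z) ^ (1 / 4 : ℝ)) := by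
  have h1 := (Real.one_add_rpow_hasFPowerSeriesOnBall_zero (a := (1 / 4 : ℝ))).hasSum
    (y := -z) (by
      rw [Metric.mem_eball, edist_zero_right, enorm_neg]
      rw [← ENNReal.ofReal_one, Real.enorm_eq_ofReal_abs]
      exact (ENNReal.ofReal_lt_ofReal_iff one_pos).mpr hz)
  rw [zero_add] at h1
  have e : (1 + -z) = 1 - z := by ring
  rw [e] at h1
  suffices hf : (fun k : ℕ => (fq k : ℝ) * z ^ k) =
      fun n => (binomialSeries ℝ (1 / 4 : ℝ) n) fun _ => -z by
    rw [hf]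
    exact h1
  funext k
  rw [binomialSeries_apply]
  have e2 : (List.ofFn fun _ : Fin k => -z).prod = (-z) ^ k := by
    rw [List.ofFn_const, List.prod_replicate]
  have e3 : ((Ring.choose (1 / 4 : ℚ) k : ℚ) : ℝ) = Ring.choose (1 / 4 : ℝ) k := by
    have := Ring.map_choose (algebraMap ℚ ℝ) (1 / 4 : ℚ) k
    simpa using this
  rw [e2, fq, smul_eq_mul, neg_pow, ← e3]
  push_cast
  ring

private lemma Rem_summable (z : ℝ) (hz : |z| < 1) :
    Summable fun k : ℕ => ‖(fq k : ℝ) * z ^ k‖ := by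
  refine Summable.of_nonneg_of_le (fun k => norm_nonneg _) (fun k => ?_)
    (summable_geometric_of_lt_one (abs_nonneg z) hz)
  rw [norm_mul, Real.norm_eq_abs, norm_pow, Real.norm_eq_abs]
  have h : |((fq k : ℚ) : ℝ)| ≤ 1 := by exact_mod_cast fq_le k
  exact mul_le_of_le_one_left (by positivity) h

private lemma Rem_hasSum (m : ℕ) (z : ℝ) (hz : |z| < 1) :
    HasSum (fun k : ℕ => (cq m k : ℝ) * z ^ k) (Bev m z * (1 - z) ^ (1 / 4 : ℝ)) := by
  have hB : HasSum (fun j : ℕ => (((if j ≤ m then bq m j else 0 : ℚ)) : ℝ) * z ^ j) (Bev m z) := by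
    have h : HasSum (fun j : ℕ => (((if j ≤ m then bq m j else 0 : ℚ)) : ℝ) * z ^ j)
        (∑ j ∈ Finset.range (m + 1), (((if j ≤ m then bq m j else 0 : ℚ)) : ℝ) * z ^ j) :=
      hasSum_sum_of_ne_finset_zero (fun j hj => by
        have : ¬ j ≤ m := by simpa using hj
        simp [this])
    have e : Bev m z = ∑ j ∈ Finset.range (m + 1),
        (((if j ≤ m then bq m j else 0 : ℚ)) : ℝ) * z ^ j := by
      rw [Bev]
      refine Finset.sum_congr rfl fun j hj => ?_
      have : j ≤ m := by simpa using Finset.mem_range_succ_iff.mp hj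
      rw [if_pos this]
    rw [e]
    exact h
  have hBn : Summable fun j : ℕ => ‖(((if j ≤ m then bq m j else 0 : ℚ)) : ℝ) * z ^ j‖ := by
    refine summable_of_ne_finset_zero (s := Finset.range (m + 1)) (fun j hj => ?_)
    have : ¬ j ≤ m := by simpa using hj
    simp [this]
  have h := hasSum_sum_range_mul_of_summable_norm hBn (Rem_summable z hz)
  rw [hB.tsum_eq, (hasSum_root z hz).tsum_eq] at h
  suffices hf : (fun k : ℕ => (cq m k : ℝ) * z ^ k) = fun n : ℕ => ∑ k ∈ Finset.range (n + 1),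
      (((if k ≤ m then bq m k else 0 : ℚ)) : ℝ) * z ^ k * (((fq (n - k) : ℚ) : ℝ) * z ^ (n - k)) by
    rw [hf]
    exact h
  funext k
  rw [cq]
  push_cast
  rw [Finset.sum_mul]
  refine Finset.sum_congr rfl fun j hj => ?_
  have hj' : j ≤ k := Finset.mem_range_succ_iff.mp hj
  have e : z ^ k = z ^ j * z ^ (k - j) := by rw [← pow_add, Nat.add_sub_cancel' hj']
  rw [e]
  ring

theorem Bev_le (m : ℕ) (z : ℝ) (hz : |z| ≤ 1) : |Bev m z| ≤ 128 ^ m := by
  have h1 : |Bev m z| ≤ ∑ _j ∈ Finset.range (m + 1), (64 : ℝ) ^ m := by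
    rw [Bev]
    refine (Finset.abs_sum_le_sum_abs _ _).trans (Finset.sum_le_sum fun j hj => ?_)
    have hj' : j ≤ m := Finset.mem_range_succ_iff.mp hj
    have hb : |((bq m j : ℚ) : ℝ)| ≤ 64 ^ m := by exact_mod_cast bq_le m j hj'
    rw [abs_mul, abs_pow]
    calc |((bq m j : ℚ) : ℝ)| * |z| ^ j ≤ 64 ^ m * 1 :=
          mul_le_mul hb (pow_le_one₀ (abs_nonneg z) hz) (by positivity) (by positivity)
      _ = 64 ^ m := mul_one _
  rw [Finset.sum_const, Finset.card_range, nsmul_eq_mul] at h1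
  have h2 : ((m + 1 : ℕ) : ℝ) ≤ 2 ^ m := by
    have : m + 1 ≤ 2 ^ m := Nat.lt_two_pow_self
    exact_mod_cast this
  calc |Bev m z| ≤ ((m + 1 : ℕ) : ℝ) * 64 ^ m := h1
    _ ≤ 2 ^ m * 64 ^ m := mul_le_mul_of_nonneg_right h2 (by positivity)
    _ = 128 ^ m := by rw [← mul_pow]; norm_num

theorem rem_le (m : ℕ) (z : ℝ) (hz : |z| ≤ 1 / 2) :
    |Aev m z - (1 - z) ^ (1 / 4 : ℝ) * Bev m z| ≤ 2 * 128 ^ m * |z| ^ (2 * m + 1) := by
  have hz1 : |z| < 1 := by linarith
  have h1 := (hasSum_nat_add_iff' (2 * m + 1)).mpr (Rem_hasSum m z hz1)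
  have h2 : ∑ i ∈ Finset.range (2 * m + 1), (cq m i : ℝ) * z ^ i = Aev m z := by
    rw [Aev]
    symm
    refine Finset.sum_subset (fun i hi => ?_) (fun i hi hi' => ?_)
    · rw [Finset.mem_range] at hi ⊢
      omega
    · rw [Finset.mem_range] at hi hi'
      rw [cq_zero m i (by omega) (by omega)]
      simp
  rw [h2] at h1
  have h3 : HasSum (fun n : ℕ => (128 ^ m * |z| ^ (2 * m + 1)) * ((1 : ℝ) / 2) ^ n)
      ((128 ^ m * |z| ^ (2 * m + 1)) * 2) := hasSum_geometric_two.mul_left _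
  have h4 := h1.norm_le_of_bounded h3 (fun n => by
    have hc : |((cq m (n + (2 * m + 1)) : ℚ) : ℝ)| ≤ 128 ^ m := by
      exact_mod_cast cq_le m (n + (2 * m + 1))
    rw [Real.norm_eq_abs, abs_mul, abs_pow, pow_add]
    calc |((cq m (n + (2 * m + 1)) : ℚ) : ℝ)| * (|z| ^ n * |z| ^ (2 * m + 1))
        ≤ 128 ^ m * ((1 / 2) ^ n * |z| ^ (2 * m + 1)) := by
          refine mul_le_mul hc (mul_le_mul_of_nonneg_right (pow_le_pow_left₀ (abs_nonneg z) hz n)
            (by positivity)) (by positivity) (by positivity)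
      _ = (128 ^ m * |z| ^ (2 * m + 1)) * (1 / 2) ^ n := by ring)
  rw [Real.norm_eq_abs, abs_sub_comm] at h4
  calc |Aev m z - (1 - z) ^ (1 / 4 : ℝ) * Bev m z| = |Aev m z - Bev m z * (1 - z) ^ (1 / 4 : ℝ)| := by
        rw [mul_comm ((1 - z) ^ (1 / 4 : ℝ))]
    _ ≤ (128 ^ m * |z| ^ (2 * m + 1)) * 2 := h4
    _ = 2 * 128 ^ m * |z| ^ (2 * m + 1) := by ring

end H51.EF
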