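import Pool.Agent.H51.EF.BinI
import Pool.Agent.H51.EF.Det
import Pool.Agent.H51.EF.Rem

/-!
# Appr : the approximations of `α` (`α ^ 4 = b`) from one solution (130 lines)

`z = c / s^4`, `c = s^4 - b d^4`, `|z| ≤ 1/2`, `1 - z = b d^4 / s^4 = (α d / s)^4`, so
`(1 - z)^(1/4) = α d / s` (`Real.pow_rpow_inv_natCast` or similar, `α d / s > 0`).
`p m = s^(4m+1) * Aev m z = s * ∑_j cq m j * c^j * s^(4(m-j))`, an integer by `cq_int`,
`q m = d * s^(4m) * Bev m z = d * ∑_j bq m j * c^j * s^(4(m-j))`, an integer by `bq_int`.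
`|p m - α q m| = s^(4m+1) |Aev m z - (α d/s) Bev m z| ≤ s^(4m+1) * 2 * 128^m * (C / s^4)^(2m+1)`, which is
`2 * 128^m * C^(2m+1) / s^(4m+3)`; `|q m| ≤ d s^(4m) 128^m`;
`p m q (m+1) - p (m+1) q m = d s^(8m+5) γ z^(2m+1)`, not zero because `z ≠ 0` (`det_eq`).
-/

namespace H51.EF

theorem appr (b : ℤ) (α C : ℝ) (hb : 0 < b) (hα : 0 < α) (hα4 : α ^ 4 = b) (hC : 1 ≤ C)
    (s d : ℕ) (hs : 0 < s) (hd : 0 < d) (hne : (s : ℝ) ^ 4 ≠ b * d ^ 4)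
    (hle : |(s : ℝ) ^ 4 - b * d ^ 4| ≤ C) (hs2 : 2 * C ≤ (s : ℝ) ^ 4) :
    ∃ p q : ℕ → ℤ, ∀ m : ℕ,
      |(p m : ℝ) - α * q m| ≤ 2 * 128 ^ m * C ^ (2 * m + 1) / s ^ (4 * m + 3) ∧
      |(q m : ℝ)| ≤ d * s ^ (4 * m) * 128 ^ m ∧
      p m * q (m + 1) - p (m + 1) * q m ≠ 0 := by
  classical
  have hbq : ∀ m j : ℕ, ∃ n : ℤ, j ≤ m → bq m j = n := fun m j => by
    by_cases h : j ≤ m
    · obtain ⟨n, hn⟩ := bq_int m j h
      exact ⟨n, fun _ => hn⟩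
    · exact ⟨0, fun h' => absurd h' h⟩
  have hcq : ∀ m j : ℕ, ∃ n : ℤ, j ≤ m → cq m j = n := fun m j => by
    by_cases h : j ≤ m
    · obtain ⟨n, hn⟩ := cq_int m j h
      exact ⟨n, fun _ => hn⟩
    · exact ⟨0, fun h' => absurd h' h⟩
  choose B hB using hbq
  choose A hA using hcq
  set c : ℤ := (s : ℤ) ^ 4 - b * (d : ℤ) ^ 4 with hc
  have hsR : (0 : ℝ) < s := by exact_mod_cast hs
  have hdR : (0 : ℝ) < d := by exact_mod_cast hd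
  have hs4 : (0 : ℝ) < (s : ℝ) ^ 4 := by positivity
  have hcR : (c : ℝ) = (s : ℝ) ^ 4 - b * d ^ 4 := by
    rw [hc]
    push_cast
    ring
  have hc0 : (c : ℝ) ≠ 0 := by
    rw [hcR]
    exact sub_ne_zero.mpr hne
  obtain ⟨z, hz⟩ : ∃ z : ℝ, z = (c : ℝ) / s ^ 4 := ⟨_, rfl⟩
  have hz0 : z ≠ 0 := by
    rw [hz]
    exact div_ne_zero hc0 hs4.ne'
  have hzle : |z| ≤ C / s ^ 4 := by
    rw [hz, abs_div, abs_of_pos hs4, hcR]
    exact div_le_div_of_nonneg_right hle hs4.le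
  have hz2 : |z| ≤ 1 / 2 := by
    refine hzle.trans ?_
    rw [div_le_iff₀ hs4]
    linarith
  have hroot : (1 - z) ^ (1 / 4 : ℝ) = α * d / s := by
    have h1 : 1 - z = (α * d / s) ^ 4 := by
      rw [hz, hcR, div_pow, mul_pow, hα4]
      field_simp
      ring
    have h2 : (0 : ℝ) ≤ α * d / s := by positivity
    rw [h1, ← Real.rpow_natCast, ← Real.rpow_mul h2]
    norm_num
  have key : ∀ (a : ℕ → ℕ → ℚ) (N : ℕ → ℕ → ℤ), (∀ m j, j ≤ m → a m j = N m j) → ∀ m : ℕ,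
      (s : ℝ) ^ (4 * m) * ∑ j ∈ Finset.range (m + 1), (a m j : ℝ) * z ^ j
        = ((∑ j ∈ Finset.range (m + 1), N m j * c ^ j * (s : ℤ) ^ (4 * (m - j)) : ℤ) : ℝ) := by
    intro a N haN m
    rw [Finset.mul_sum, Int.cast_sum]
    refine Finset.sum_congr rfl fun j hj => ?_
    have hj' : j ≤ m := by
      have := Finset.mem_range.mp hj
      omega
    rw [haN m j hj']
    push_cast
    rw [hz, div_pow]
    have h3 : (s : ℝ) ^ (4 * m) = (s : ℝ) ^ (4 * (m - j)) * ((s : ℝ) ^ 4) ^ j := by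
      rw [← pow_mul, ← pow_add]
      congr 1
      omega
    have h4 : ((s : ℝ) ^ 4) ^ j ≠ 0 := pow_ne_zero _ hs4.ne'
    rw [h3]
    field_simp
  have hAe : ∀ m : ℕ, ((∑ j ∈ Finset.range (m + 1), A m j * c ^ j * (s : ℤ) ^ (4 * (m - j)) : ℤ) : ℝ)
      = (s : ℝ) ^ (4 * m) * Aev m z := fun m => (key cq A hA m).symm
  have hBe : ∀ m : ℕ, ((∑ j ∈ Finset.range (m + 1), B m j * c ^ j * (s : ℤ) ^ (4 * (m - j)) : ℤ) : ℝ)
      = (s : ℝ) ^ (4 * m) * Bev m z := fun m => (key bq B hB m).symm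
  have hp : ∀ m : ℕ, (((s : ℤ) * ∑ j ∈ Finset.range (m + 1), A m j * c ^ j * (s : ℤ) ^ (4 * (m - j)) : ℤ) : ℝ)
      = s * ((s : ℝ) ^ (4 * m) * Aev m z) := fun m => by
    rw [Int.cast_mul, hAe m, Int.cast_natCast]
  have hq : ∀ m : ℕ, (((d : ℤ) * ∑ j ∈ Finset.range (m + 1), B m j * c ^ j * (s : ℤ) ^ (4 * (m - j)) : ℤ) : ℝ)
      = d * ((s : ℝ) ^ (4 * m) * Bev m z) := fun m => by
    rw [Int.cast_mul, hBe m, Int.cast_natCast]
  refine ⟨fun m => (s : ℤ) * ∑ j ∈ Finset.range (m + 1), A m j * c ^ j * (s : ℤ) ^ (4 * (m - j)),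
    fun m => (d : ℤ) * ∑ j ∈ Finset.range (m + 1), B m j * c ^ j * (s : ℤ) ^ (4 * (m - j)),
    fun m => ⟨?_, ?_, ?_⟩⟩
  · rw [hp m, hq m]
    have h5 : (s : ℝ) * ((s : ℝ) ^ (4 * m) * Aev m z) - α * (d * ((s : ℝ) ^ (4 * m) * Bev m z))
        = (s : ℝ) ^ (4 * m + 1) * (Aev m z - (1 - z) ^ (1 / 4 : ℝ) * Bev m z) := by
      rw [hroot, pow_succ]
      field_simp
    rw [h5, abs_mul, abs_of_pos (pow_pos hsR _)]
    have h6 := rem_le m z hz2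
    have h7 : |z| ^ (2 * m + 1) ≤ (C / s ^ 4) ^ (2 * m + 1) := pow_le_pow_left₀ (abs_nonneg z) hzle _
    have h8 : 2 * 128 ^ m * |z| ^ (2 * m + 1) ≤ 2 * 128 ^ m * (C / (s : ℝ) ^ 4) ^ (2 * m + 1) :=
      mul_le_mul_of_nonneg_left h7 (by positivity)
    have h9 : (s : ℝ) ^ (4 * m + 1) * (2 * 128 ^ m * (C / (s : ℝ) ^ 4) ^ (2 * m + 1))
        = 2 * 128 ^ m * C ^ (2 * m + 1) / s ^ (4 * m + 3) := by
      have h10 : ((s : ℝ) ^ 4) ^ (2 * m + 1) = (s : ℝ) ^ (4 * m + 1) * (s : ℝ) ^ (4 * m + 3) := by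
        rw [← pow_mul, ← pow_add]
        congr 1
        ring
      have h11 : (s : ℝ) ^ (4 * m + 1) ≠ 0 := (pow_pos hsR _).ne'
      have h12 : (s : ℝ) ^ (4 * m + 3) ≠ 0 := (pow_pos hsR _).ne'
      rw [div_pow, h10]
      field_simp
    rw [← h9]
    exact mul_le_mul_of_nonneg_left (h6.trans h8) (pow_pos hsR _).le
  · rw [hq m, abs_mul, abs_mul, abs_of_pos hdR, abs_of_pos (pow_pos hsR _), mul_assoc]
    refine mul_le_mul_of_nonneg_left ?_ hdR.le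
    exact mul_le_mul_of_nonneg_left (Bev_le m z (hz2.trans (by norm_num))) (pow_pos hsR _).le
  · intro h0
    obtain ⟨γ, hγ, hdet⟩ := det_eq m
    beta_reduce at h0
    have h13 : (s : ℝ) * ((s : ℝ) ^ (4 * m) * Aev m z) * (d * ((s : ℝ) ^ (4 * (m + 1)) * Bev (m + 1) z))
        - s * ((s : ℝ) ^ (4 * (m + 1)) * Aev (m + 1) z) * (d * ((s : ℝ) ^ (4 * m) * Bev m z)) = 0 := by
      rw [← hp m, ← hp (m + 1), ← hq m, ← hq (m + 1), ← Int.cast_mul, ← Int.cast_mul, ← Int.cast_sub, h0,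
        Int.cast_zero]
    have h14 : (s : ℝ) * ((s : ℝ) ^ (4 * m) * Aev m z) * (d * ((s : ℝ) ^ (4 * (m + 1)) * Bev (m + 1) z))
        - s * ((s : ℝ) ^ (4 * (m + 1)) * Aev (m + 1) z) * (d * ((s : ℝ) ^ (4 * m) * Bev m z))
        = (s : ℝ) * d * (s : ℝ) ^ (4 * m) * (s : ℝ) ^ (4 * (m + 1)) * ((γ : ℝ) * z ^ (2 * m + 1)) := by
      rw [← hdet z]
      ring
    rw [h14] at h13
    have h15 : (γ : ℝ) ≠ 0 := by exact_mod_cast hγ
    have h16 : (s : ℝ) * d * (s : ℝ) ^ (4 * m) * (s : ℝ) ^ (4 * (m + 1)) * ((γ : ℝ) * z ^ (2 * m + 1)) ≠ 0 := by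
      refine mul_ne_zero (by positivity) (mul_ne_zero h15 (pow_ne_zero _ hz0))
    exact h16 h13

end H51.EF
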