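import Pool.Agent.H51.EF.Defs

/-!
# BinI : integrality of the coefficients (60 lines)

`choose_int`: `j ! * Ring.choose (r / 4) j = Π_{i < j} (r / 4 - i)` (`Ring.descPochhammer_eq_factorial_smul_choose`,
`descPochhammer` at a rational number is the product), so `4 ^ j * j ! * choose = Π_{i<j} (r - 4 i) =: p`.
Write `j ! = 2 ^ e * M` with `M` odd; `e < j` or `j = 0` (`2 ^ e ∣ j !` implies `e ≤ j`, e.g.
`Nat.Prime.sub_one_mul_padicValNat_factorial` or `Nat.factorization` facts; only `e ≤ j` is needed).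
`M ∣ p`: choose `n` with `4 n ≡ r` modulo `M` (`4` is a unit modulo the odd number `M`), then
`p ≡ Π (4 n - 4 i) = 4 ^ j * Π (n - i)` modulo `M`, and `j !` divides `Π_{i<j} (n - i)` for every integer `n`
(`Int` version of `Nat.factorial_dvd_descFactorial`; or `Ring.choose` in the binomial ring `ℤ`).
Hence `2 ^ j * p / j !` is an integer, which is `8 ^ j * choose`.

`bq_int`, `cq_int`: products (`8 ^ m = 8 ^ j * 8 ^ (m - j)`; in `cq m k`, `k ≤ m`, the term is
`8 ^ m * ... * choose (m - 1/4) j * choose (1/4) (k - j)` and `j + (k - j) = k ≤ m`).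
-/

namespace H51.EF

private theorem BinI_succ (x : ℚ) (i : ℕ) :
    Ring.choose x (i + 1) * (i + 1) = Ring.choose x i * (x - i) := by
  have h := Ring.choose_smul_choose x (n := i + 1) (k := i) (Nat.le_succ i)
  have h1 : i + 1 - i = 1 := by omega
  rw [h1, Ring.choose_one_right] at h
  have h2 : (i + 1).choose i = i + 1 := by
    simp
  rw [h2, nsmul_eq_mul] at h
  push_cast at h
  rw [← h]; ring

private theorem BinI_prod (r : ℤ) (j : ℕ) :
    (4 : ℚ) ^ j * (j.factorial : ℚ) * Ring.choose ((r : ℚ) / 4) j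
      = ((∏ i ∈ Finset.range j, (r - 4 * i) : ℤ) : ℚ) := by
  induction j with
  | zero => simp
  | succ j ih =>
    rw [Finset.prod_range_succ, Int.cast_mul, ← ih, Nat.factorial_succ, pow_succ]
    have h := BinI_succ ((r : ℚ) / 4) j
    push_cast
    have h2 : (4 : ℚ) ^ j * 4 * ((j + 1) * (j.factorial : ℚ)) * Ring.choose ((r : ℚ) / 4) (j + 1)
        = (4 : ℚ) ^ j * 4 * (j.factorial : ℚ) * (Ring.choose ((r : ℚ) / 4) (j + 1) * (j + 1)) := by
      ring
    rw [h2, h]
    ring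

private theorem BinI_fac_dvd (n : ℤ) (j : ℕ) :
    (j.factorial : ℤ) ∣ ∏ i ∈ Finset.range j, (n - i) := by
  have h := Ring.descPochhammer_eq_factorial_smul_choose n j
  have h2 := descPochhammer_eval_eq_prod_range j n
  have h3 : (descPochhammer ℤ j).smeval n = (descPochhammer ℤ j).eval n := by
    rw [Polynomial.eval_eq_smeval]
  rw [h3, h2, nsmul_eq_mul] at h
  exact ⟨_, h⟩

private theorem BinI_odd_dvd (r : ℤ) (j M : ℕ) (hM : Odd M) (hd : M ∣ j.factorial) :
    (M : ℤ) ∣ ∏ i ∈ Finset.range j, (r - 4 * i) := by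
  have hc : IsCoprime (4 : ℤ) (M : ℤ) := by
    have h1 : Nat.Coprime 4 M := by
      have h2 : Nat.Coprime 2 M := (Nat.coprime_two_left).2 hM
      have h3 : Nat.Coprime (2 ^ 2) M := Nat.Coprime.pow_left 2 h2
      simpa using h3
    have := Nat.isCoprime_iff_coprime.2 h1
    simpa using this
  obtain ⟨a, b, hab⟩ := hc
  -- a * 4 + b * M = 1
  set n : ℤ := a * r with hn
  have hmod : ∀ i ∈ Finset.range j, (r - 4 * (i : ℤ)) ≡ 4 * (n - i) [ZMOD M] := by
    intro i _
    have : (M : ℤ) ∣ (4 * (n - i) - (r - 4 * (i : ℤ))) := by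
      refine ⟨- b * r, ?_⟩
      rw [hn]
      linear_combination r * hab
    exact (Int.modEq_iff_dvd).2 this
  have hp : (∏ i ∈ Finset.range j, (r - 4 * (i : ℤ))) ≡ ∏ i ∈ Finset.range j, (4 * (n - (i : ℤ))) [ZMOD M] := by
    clear hd
    induction j with
    | zero => simp
    | succ j ih =>
      rw [Finset.prod_range_succ, Finset.prod_range_succ]
      exact (ih (fun i hi => hmod i (Finset.mem_range.2 (by have := Finset.mem_range.1 hi; omega)))).mul
        (hmod j (Finset.mem_range.2 (by omega)))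
  have h4 : (M : ℤ) ∣ ∏ i ∈ Finset.range j, (4 * (n - (i : ℤ))) := by
    rw [Finset.prod_mul_distrib]
    exact Dvd.dvd.mul_left ((Int.natCast_dvd_natCast.2 hd).trans (BinI_fac_dvd n j)) _
  exact (Int.ModEq.dvd_iff hp).2 h4

theorem choose_int (r : ℤ) (j : ℕ) : ∃ n : ℤ, (8 : ℚ) ^ j * Ring.choose ((r : ℚ) / 4) j = n := by
  obtain ⟨e, M, hM, hj⟩ := Nat.exists_eq_two_pow_mul_odd (n := j.factorial) (Nat.factorial_ne_zero j)
  have he : e ≤ j := by
    have : Fact (Nat.Prime 2) := ⟨Nat.prime_two⟩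
    have h1 := sub_one_mul_padicValNat_factorial (p := 2) j
    have h2 : e ≤ padicValNat 2 j.factorial := by
      rw [← padicValNat_dvd_iff_le (Nat.factorial_ne_zero j), hj]
      exact Dvd.intro _ rfl
    omega
  obtain ⟨p', hp'⟩ := BinI_odd_dvd r j M hM (hj ▸ Dvd.intro_left _ rfl)
  refine ⟨2 ^ (j - e) * p', ?_⟩
  have h := BinI_prod r j
  rw [hp', hj] at h
  push_cast at h
  have hM0 : (M : ℚ) ≠ 0 := by
    have : M ≠ 0 := by
      rintro rfl
      exact absurd hM (by decide)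
    exact_mod_cast this
  have h8 : (8 : ℚ) ^ j = 2 ^ (j - e) * 2 ^ e * 4 ^ j := by
    rw [← pow_add, Nat.sub_add_cancel he, ← mul_pow]; norm_num
  have h5 : (M : ℚ) * ((4 : ℚ) ^ j * 2 ^ e * Ring.choose ((r : ℚ) / 4) j) = (M : ℚ) * p' := by
    rw [← h]; ring
  have h6 := mul_left_cancel₀ hM0 h5
  rw [h8]
  push_cast
  rw [← h6]; ring

theorem bq_int (m j : ℕ) (h : j ≤ m) : ∃ n : ℤ, bq m j = n := by
  obtain ⟨n, hn⟩ := choose_int (4 * m - 1) j
  refine ⟨8 ^ (m - j) * ((-1) ^ j * ((2 * m - j).choose m) * n), ?_⟩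
  have h1 : (((4 * m - 1 : ℤ) : ℚ)) / 4 = (m : ℚ) - 1 / 4 := by push_cast; ring
  rw [h1] at hn
  have h8 : (8 : ℚ) ^ m = 8 ^ (m - j) * 8 ^ j := by rw [← pow_add, Nat.sub_add_cancel h]
  unfold bq
  push_cast
  rw [← hn, h8]
  ring

theorem cq_int (m k : ℕ) (h : k ≤ m) : ∃ n : ℤ, cq m k = n := by
  have key : ∀ j ∈ Finset.range (k + 1), ∃ n : ℤ, (if j ≤ m then bq m j else 0) * fq (k - j) = n := by
    intro j hj
    have hjk : j ≤ k := Nat.lt_succ_iff.1 (Finset.mem_range.1 hj)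
    rw [if_pos (hjk.trans h)]
    obtain ⟨n, hn⟩ := choose_int (4 * m - 1) j
    obtain ⟨n', hn'⟩ := choose_int 1 (k - j)
    have h1 : (((4 * m - 1 : ℤ) : ℚ)) / 4 = (m : ℚ) - 1 / 4 := by push_cast; ring
    rw [h1] at hn
    have h8 : (8 : ℚ) ^ m = 8 ^ (m - k) * 8 ^ j * 8 ^ (k - j) := by
      rw [← pow_add, ← pow_add]
      congr 1
      omega
    refine ⟨8 ^ (m - k) * ((-1) ^ j * ((2 * m - j).choose m) * n) * ((-1) ^ (k - j) * n'), ?_⟩
    unfold bq fq
    push_cast
    push_cast at hn'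
    rw [← hn, ← hn', h8]
    ring
  unfold cq
  choose! f hf using key
  refine ⟨∑ j ∈ Finset.range (k + 1), f j, ?_⟩
  rw [Int.cast_sum]
  exact Finset.sum_congr rfl hf

end H51.EF
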