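import Pool.Agent.H51.EF.Defs

/-!
# Dbl : the doubling formula in the coordinate `U = 4 x - e`, `Y = 4 (2 y + a₁ x + a₃)` (90 lines)

`curve_eq`: `Y^2 = 16 (4 x^3 + b₂ x^2 + 2 b₄ x + b₆) = U^3 + A U^2 + B U` with `A = 3 e + b₂`,
`B = 3 e^2 + 2 b₂ e + 8 b₄` and the root equation.
`dbl_eq`: if `Q = (x, y)`, `Q + Q = (x', y')` then `2 y + a₁ x + a₃ ≠ 0` (otherwise `Q + Q = 0`), and
`Point.add_self_of_Y_ne` with `slope_of_Y_ne` gives `x' = λ^2 + a₁ λ - a₂ - 2 x`,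
`λ = (3 x^2 + 2 a₂ x + a₄ - a₁ y) / (2 y + a₁ x + a₃)`. Then `(4 x' - e) * (4 Y^2) = (U^2 - B)^2` by
clearing the denominator and the curve equation.
(The classical form: `x' = (x^4 - b₄ x^2 - 2 b₆ x - b₈) / (4 x^3 + b₂ x^2 + 2 b₄ x + b₆)`.)
-/

namespace H51.EF

open WeierstrassCurve

theorem curve_eq (W : WeierstrassCurve ℤ) (e : ℤ)
    (he : e ^ 3 + W.b₂ * e ^ 2 + 8 * W.b₄ * e + 16 * W.b₆ = 0) (x y : ℚ)
    (h : (W.map (Int.castRingHom ℚ)).toAffine.Equation x y) :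
    (4 * x - e) * ((4 * x - e) ^ 2 + ((3 * e + W.b₂ : ℤ) : ℚ) * (4 * x - e) +
      ((3 * e ^ 2 + 2 * W.b₂ * e + 8 * W.b₄ : ℤ) : ℚ)) = (4 * (2 * y + W.a₁ * x + W.a₃)) ^ 2 := by
  have he' : ((e : ℚ)) ^ 3 + W.b₂ * e ^ 2 + 8 * W.b₄ * e + 16 * W.b₆ = 0 := by exact_mod_cast he
  rw [Affine.equation_iff] at h
  simp only [map_a₁, map_a₂, map_a₃, map_a₄, map_a₆, eq_intCast] at h
  simp only [b₂, b₄, b₆] at he' ⊢
  push_cast at he' ⊢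
  linear_combination (-64) * h - he'

theorem dbl_eq (W : WeierstrassCurve ℤ) (e : ℤ)
    (he : e ^ 3 + W.b₂ * e ^ 2 + 8 * W.b₄ * e + 16 * W.b₆ = 0) (x y x' y' : ℚ)
    (h : (W.map (Int.castRingHom ℚ)).toAffine.Nonsingular x y)
    (h' : (W.map (Int.castRingHom ℚ)).toAffine.Nonsingular x' y')
    (hh : Affine.Point.some x y h + Affine.Point.some x y h = Affine.Point.some x' y' h') :
    2 * y + W.a₁ * x + W.a₃ ≠ 0 ∧
    4 * x' - e = ((4 * x - e) ^ 2 - ((3 * e ^ 2 + 2 * W.b₂ * e + 8 * W.b₄ : ℤ) : ℚ)) ^ 2 /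
      (4 * (4 * (2 * y + W.a₁ * x + W.a₃)) ^ 2) := by
  have he' : ((e : ℚ)) ^ 3 + W.b₂ * e ^ 2 + 8 * W.b₄ * e + 16 * W.b₆ = 0 := by exact_mod_cast he
  have hE := h.1
  rw [Affine.equation_iff] at hE
  simp only [map_a₁, map_a₂, map_a₃, map_a₄, map_a₆, eq_intCast] at hE
  have hne : y ≠ (W.map (Int.castRingHom ℚ)).toAffine.negY x y := by
    intro hy
    rw [Affine.Point.add_self_of_Y_eq hy] at hh
    exact Affine.Point.some_ne_zero _ hh.symm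
  have hne' : 2 * y + W.a₁ * x + W.a₃ ≠ 0 := by
    intro h0
    apply hne
    simp only [Affine.negY, map_a₁, map_a₃, eq_intCast]
    linear_combination h0
  refine ⟨hne', ?_⟩
  rw [Affine.Point.add_self_of_Y_ne hne] at hh
  simp only [Affine.Point.some.injEq] at hh
  obtain ⟨hx, -⟩ := hh
  rw [Affine.slope_of_Y_ne rfl hne] at hx
  simp only [Affine.addX, Affine.negY, map_a₁, map_a₂, map_a₃, map_a₄, eq_intCast] at hx
  have hd : y - (-y - W.a₁ * x - W.a₃) = 2 * y + W.a₁ * x + W.a₃ := by ring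
  rw [hd] at hx
  set ψ : ℚ := 2 * y + W.a₁ * x + W.a₃ with hψ
  set lam : ℚ := (3 * x ^ 2 + 2 * W.a₂ * x + W.a₄ - W.a₁ * y) / ψ with hlam
  have hl : lam * ψ = 3 * x ^ 2 + 2 * W.a₂ * x + W.a₄ - W.a₁ * y := div_mul_cancel₀ _ hne'
  rw [← hx, eq_div_iff (by positivity)]
  simp only [b₂, b₄, b₆] at he' ⊢
  push_cast at he' ⊢
  have hψ2 : ψ = 2 * y + W.a₁ * x + W.a₃ := rfl
  clear_value lam
  rw [hψ2] at hl ⊢
  linear_combination (256 * (lam * (2 * y + W.a₁ * x + W.a₃) +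
    (3 * x ^ 2 + 2 * W.a₂ * x + W.a₄ - W.a₁ * y)) + 256 * W.a₁ * (2 * y + W.a₁ * x + W.a₃)) * hl
    - 256 * ((W.a₁ ^ 2 + 4 * W.a₂) + 8 * x + e) * hE
    - (32 * x + 4 * e + 4 * (W.a₁ ^ 2 + 4 * W.a₂)) * he'

end H51.EF
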