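import Mathlib

/-!
# EF.Defs : elliptic Fermat numbers of curves with a rational point of order two (MP_7123b4_nt)

Definitions used by all modules (no sorry). Paper: `/team-store/h51_ef_paper.md`.
-/

namespace H51.EF

/-- A sequence `u k` = the coordinate `U` of `2^k P` on the curve `Y^2 = U (U^2 + a U + b)`, with the
doubling formula, and with finite fibres. -/
structure Sq (a b : ℤ) (u Y : ℕ → ℚ) : Prop where
  hb : b ≠ 0
  hab : a ^ 2 - 4 * b ≠ 0
  curve : ∀ k, u k * (u k ^ 2 + a * u k + b) = Y k ^ 2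
  ne : ∀ k, Y k ≠ 0
  dbl : ∀ k, u (k + 1) = (u k ^ 2 - b) ^ 2 / (4 * Y k ^ 2)
  fin : ∀ q : ℚ, {k | u k = q}.Finite

/-- the coefficients of the denominators of the Pade approximants of `(1 - z) ^ (1 / 4)` -/
noncomputable def bq (m j : ℕ) : ℚ :=
  8 ^ m * ((-1) ^ j * ((2 * m - j).choose m) * Ring.choose ((m : ℚ) - 1 / 4) j)

/-- the coefficients of the power series of `(1 - z) ^ (1 / 4)` -/
noncomputable def fq (i : ℕ) : ℚ := (-1) ^ i * Ring.choose (1 / 4 : ℚ) i

/-- the coefficients of the product of the power series and of the denominator -/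
noncomputable def cq (m k : ℕ) : ℚ := ∑ j ∈ Finset.range (k + 1), (if j ≤ m then bq m j else 0) * fq (k - j)

/-- the denominator of the Pade approximant -/
noncomputable def Bev (m : ℕ) (z : ℝ) : ℝ := ∑ j ∈ Finset.range (m + 1), (bq m j : ℝ) * z ^ j

/-- the numerator of the Pade approximant -/
noncomputable def Aev (m : ℕ) (z : ℝ) : ℝ := ∑ j ∈ Finset.range (m + 1), (cq m j : ℝ) * z ^ j

end H51.EF
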