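import Pool.Agent.H51.EF.Defs

/-!
# Den : comparison of the denominators (60 lines)

`x = A / D^2` in lowest terms, `u = 4 x - e`. Then `u.den ∣ D^2` (`u * D^2` is an integer) and
`D^2 ∣ 4 * u.den` (`4 x = u + e`, so `4 A * u.den / D^2` is an integer and `gcd(A, D) = 1`). If `u.den = d^2`
then `d ∣ D` and `D ∣ 2 d` (`Nat.pow_dvd_pow_iff`), so `D = d` or `D = 2 d`.
-/

namespace H51.EF

theorem den_cmp (A e : ℤ) (D d : ℕ) (hD : 0 < D) (hd : 0 < d) (h : IsCoprime A (D : ℤ))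
    (hden : (4 * ((A : ℚ) / (D : ℚ) ^ 2) - (e : ℚ)).den = d ^ 2) : D = d ∨ D = 2 * d := by
  have hDq : (D : ℚ) ≠ 0 := by exact_mod_cast hD.ne'
  have hdq : (d : ℚ) ≠ 0 := by exact_mod_cast hd.ne'
  set u : ℚ := 4 * ((A : ℚ) / (D : ℚ) ^ 2) - (e : ℚ) with hu
  have hnum : u * (d : ℚ) ^ 2 = (u.num : ℚ) := by
    have h1 : u * (u.den : ℚ) = (u.num : ℚ) := Rat.mul_den_eq_num u
    rw [hden] at h1
    push_cast at h1
    exact h1
  have key : ((4 * A - e * (D : ℤ) ^ 2 : ℤ) : ℚ) * (d : ℚ) ^ 2 = (u.num : ℚ) * (D : ℚ) ^ 2 := by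
    rw [← hnum, hu]
    push_cast
    field_simp
  have keyZ : (4 * A - e * (D : ℤ) ^ 2) * (d : ℤ) ^ 2 = u.num * (D : ℤ) ^ 2 := by
    exact_mod_cast key
  have hcop : IsCoprime u.num ((d : ℤ) ^ 2) := by
    have h1 : Nat.Coprime u.num.natAbs (d ^ 2) := by
      have := u.reduced
      rwa [hden] at this
    rw [Int.isCoprime_iff_gcd_eq_one]
    have h2 : ((d : ℤ) ^ 2).natAbs = d ^ 2 := by
      rw [Int.natAbs_pow, Int.natAbs_natCast]
    rw [Int.gcd, h2]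
    exact h1
  have hdD : (d : ℤ) ^ 2 ∣ (D : ℤ) ^ 2 := by
    have : (d : ℤ) ^ 2 ∣ u.num * (D : ℤ) ^ 2 := ⟨4 * A - e * (D : ℤ) ^ 2, by rw [← keyZ]; ring⟩
    exact hcop.symm.dvd_of_dvd_mul_left this
  have hDd : (D : ℤ) ^ 2 ∣ 4 * (d : ℤ) ^ 2 := by
    have hc : IsCoprime ((D : ℤ) ^ 2) A := (h.symm).pow_left
    have : (D : ℤ) ^ 2 ∣ A * (4 * (d : ℤ) ^ 2) := by
      refine ⟨u.num + e * (d : ℤ) ^ 2, ?_⟩
      linear_combination keyZ
    exact hc.dvd_of_dvd_mul_left this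
  have hdDn : d ∣ D := by
    have h1 : d ^ 2 ∣ D ^ 2 := by exact_mod_cast hdD
    exact (Nat.pow_dvd_pow_iff (by norm_num)).1 h1
  have hDdn : D ∣ 2 * d := by
    have h1 : D ^ 2 ∣ 4 * d ^ 2 := by exact_mod_cast hDd
    have h2 : D ^ 2 ∣ (2 * d) ^ 2 := by
      have : (2 * d) ^ 2 = 4 * d ^ 2 := by ring
      rw [this]
      exact h1
    exact (Nat.pow_dvd_pow_iff (by norm_num)).1 h2
  obtain ⟨k, rfl⟩ := hdDn
  have hk : k ∣ 2 := by
    have : d * k ∣ d * 2 := by rw [mul_comm d 2]; exact hDdn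
    exact Nat.dvd_of_mul_dvd_mul_left hd this
  have hk2 : k = 1 ∨ k = 2 := (Nat.dvd_prime Nat.prime_two).1 hk
  rcases hk2 with rfl | rfl
  · left; ring
  · right; ring

end H51.EF
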