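import Pool.Agent.H51.EF.Defs

/-!
# Dual : the isogenous sequence (60 lines)

`u' = Y^2 / u^2`, `Y' = Y (b - u^2) / u^2` on the curve with `a' = - 2 a`, `b' = a^2 - 4 b`. `u k ≠ 0` by `curve`
and `ne`. `u k ^ 2 ≠ b` because otherwise `u (k+1) = 0`. `dbl`: clear denominators, substitute
`Y^2 = u (u^2 + a u + b)` (`Y (k+1)^2` from `curve`), `field_simp; ring`. `fin`: `u' k = q` means
`u^2 + a u + b = q u`, at most two values of `u k` (a nonzero polynomial of degree two has finitely many roots;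
or: two solutions `u, v` satisfy `u = v` or `u v = b`).
-/

namespace H51.EF

private lemma u_ne {a b : ℤ} {u Y : ℕ → ℚ} (h : Sq a b u Y) (k : ℕ) : u k ≠ 0 := by
  intro h0
  have h1 := h.curve k
  rw [h0, zero_mul] at h1
  exact h.ne k (pow_eq_zero_iff (two_ne_zero) |>.mp h1.symm)

private lemma usq_ne {a b : ℤ} {u Y : ℕ → ℚ} (h : Sq a b u Y) (k : ℕ) : u k ^ 2 - b ≠ 0 := by
  intro h0
  have h1 := h.dbl k
  rw [h0] at h1
  apply u_ne h (k + 1)
  rw [h1]
  simp

private lemma q_eq {a b : ℤ} {u Y : ℕ → ℚ} (h : Sq a b u Y) (k : ℕ) :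
    Y k ^ 2 / u k ^ 2 = (u k ^ 2 + a * u k + b) / u k := by
  have hu := u_ne h k
  rw [← h.curve k]
  field_simp

theorem dual {a b : ℤ} {u Y : ℕ → ℚ} (h : Sq a b u Y) :
    Sq (-2 * a) (a ^ 2 - 4 * b) (fun k => Y k ^ 2 / u k ^ 2)
      (fun k => Y k * (b - u k ^ 2) / u k ^ 2) := by
  refine ⟨h.hab, ?_, ?_, ?_, ?_, ?_⟩
  · have : (-2 * a) ^ 2 - 4 * (a ^ 2 - 4 * b) = 16 * b := by ring
    rw [this]
    exact mul_ne_zero (by norm_num) h.hb
  · intro k
    have hu := u_ne h k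
    have hc := h.curve k
    have hy : (Y k * (b - u k ^ 2) / u k ^ 2) ^ 2
        = (Y k ^ 2) * (b - u k ^ 2) ^ 2 / u k ^ 4 := by
      field_simp
    show Y k ^ 2 / u k ^ 2 * ((Y k ^ 2 / u k ^ 2) ^ 2 + ((-2 * a : ℤ) : ℚ) * (Y k ^ 2 / u k ^ 2)
      + ((a ^ 2 - 4 * b : ℤ) : ℚ)) = (Y k * (b - u k ^ 2) / u k ^ 2) ^ 2
    rw [hy, q_eq h k, ← hc]
    push_cast
    field_simp
    ring
  · intro k
    have hu := u_ne h k
    have h1 := usq_ne h k
    have h2 : (b : ℚ) - u k ^ 2 ≠ 0 := by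
      intro h0
      apply h1
      linarith
    exact div_ne_zero (mul_ne_zero (h.ne k) h2) (pow_ne_zero _ hu)
  · intro k
    have hu := u_ne h k
    have hu1 := u_ne h (k + 1)
    have h1 := usq_ne h k
    have hY := h.ne k
    have hc := h.curve k
    have h2 : (b : ℚ) - u k ^ 2 ≠ 0 := by
      intro h0
      apply h1
      linarith
    have hw : u k ^ 2 + a * u k + b ≠ 0 := by
      intro h0
      rw [h0, mul_zero] at hc
      exact hY (pow_eq_zero_iff (two_ne_zero) |>.mp hc.symm)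
    have hy : (Y k * (b - u k ^ 2) / u k ^ 2) ^ 2
        = (Y k ^ 2) * (b - u k ^ 2) ^ 2 / u k ^ 4 := by
      field_simp
    have hd : u (k + 1) = (u k ^ 2 - b) ^ 2 / (4 * (u k * (u k ^ 2 + a * u k + b))) := by
      rw [h.dbl k, hc]
    show Y (k + 1) ^ 2 / u (k + 1) ^ 2
      = ((Y k ^ 2 / u k ^ 2) ^ 2 - ((a ^ 2 - 4 * b : ℤ) : ℚ)) ^ 2
        / (4 * (Y k * (b - u k ^ 2) / u k ^ 2) ^ 2)
    rw [hy, q_eq h k, q_eq h (k + 1), ← hc, hd]
    push_cast
    have h3 : (b : ℚ) - u k ^ 2 = -(u k ^ 2 - b) := by ring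
    rw [h3]
    obtain ⟨w, hw'⟩ : ∃ w, w = u k ^ 2 + a * u k + b := ⟨_, rfl⟩
    obtain ⟨v, hv'⟩ : ∃ v, v = u k ^ 2 - b := ⟨_, rfl⟩
    rw [← hw'] at hw ⊢
    rw [← hv'] at h1 ⊢
    obtain ⟨x, hx⟩ : ∃ x, x = u k := ⟨_, rfl⟩
    rw [← hx] at hw' hv' hu ⊢
    have hb' : (b : ℚ) = x ^ 2 - v := by rw [hv']; ring
    rw [hb'] at hw' ⊢
    have ha' : (a : ℚ) = (w - 2 * x ^ 2 + v) / x := by
      rw [hw']; field_simp; ring
    rw [ha']
    field_simp
    ring
  · intro q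
    show {k | Y k ^ 2 / u k ^ 2 = q}.Finite
    by_cases hne : {k | Y k ^ 2 / u k ^ 2 = q}.Nonempty
    · obtain ⟨k0, hk0⟩ := hne
      apply ((h.fin (u k0)).union (h.fin (b / u k0))).subset
      intro k hk
      have hk0' : (u k0 ^ 2 + a * u k0 + b) / u k0 = q := by
        rw [← q_eq h k0]; exact hk0
      have hk' : (u k ^ 2 + a * u k + b) / u k = q := by
        rw [← q_eq h k]; exact hk
      have hu := u_ne h k
      have hu0 := u_ne h k0
      rw [div_eq_iff hu] at hk'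
      rw [div_eq_iff hu0] at hk0'
      have hp : (u k - u k0) * (u k * u k0 - b) = 0 := by
        linear_combination u k0 * hk' - u k * hk0'
      rcases mul_eq_zero.mp hp with h3 | h3
      · left
        show u k = u k0
        linarith
      · right
        show u k = b / u k0
        rw [eq_div_iff hu0]
        linarith
    · rw [Set.not_nonempty_iff_eq_empty.mp hne]
      exact Set.finite_empty

end H51.EF
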