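import Pool.Agent.H51.EF.Defs

/-!
# Gap : the gap argument (150 lines, real inequalities only)

Let `x, y` be positive integers with `|x^4 - b y^4| ≤ C`. Then
`|x - α y| = |x^4 - α^4 y^4| / ((x + α y)(x^2 + α^2 y^2)) ≤ C / (α^3 y^3)`.
For an integer pair `(p m, q m)` put `Δ m = p m * y - q m * x` (an integer). Then
`|Δ m| ≤ |p m - α q m| * y + |q m| * |α y - x| ≤ 2 * 128^m C^(2m+1) y / s^(4m+3) + d s^(4m) 128^m C / (α^3 y^3)`.
Put `κ = 128 C^2` and suppose `s^4 ≥ κ^3` (so `≥ 2 κ`) : the first term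
`T m = 2 C y s^(-3) (κ / s^4)^m` decreases to zero; let `m` be minimal with `T m < 1/2`.
If `m = 0` then nothing more is needed: the claim is for all `y` larger than a constant `Y₀` for which
`T 0 ≥ 1/2`, so `m ≥ 1` and `T (m-1) ≥ 1/2`: `(s^4 / κ)^(m-1) ≤ 4 C y / s^3 ≤ 4 C y`. As
`s^4 / κ ≥ κ^2` this gives `κ^(2(m-1)) ≤ 4 C y`. For `n = m` and `n = m + 1` the second term is at most
`d C α^(-3) y^(-3) * (128 s^4)^(m+1)` and
`(128 s^4)^(m+1) = (128 s^4)^2 * (128 κ)^(m-1) * (s^4/κ)^(m-1) ≤ (128 s^4)^2 * κ^(2(m-1)) * 4 C y ≤ (128 s^4)^2 (4 C y)^2`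
(`128 ≤ κ`). So the second term is at most `d C α^(-3) (128 s^4)^2 (4C)^2 / y < 1/2` for `y` large.
Then `|Δ m| < 1` and `|Δ (m+1)| < 1`, so both are zero, and `(y, -x)` is a nonzero vector in the kernel of the
matrix of determinant `p m q (m+1) - p (m+1) q m ≠ 0`: contradiction.
-/

namespace H51.EF

private theorem dist_le (b : ℤ) (α C : ℝ) (hα : 0 < α) (hα4 : α ^ 4 = b) (x y : ℕ)
    (hx : 0 < x) (hy : 0 < y) (h : |(x : ℝ) ^ 4 - b * y ^ 4| ≤ C) :
    |α * y - x| ≤ C / (α ^ 3 * y ^ 3) := by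
  have hx' : (0 : ℝ) < x := by exact_mod_cast hx
  have hy' : (0 : ℝ) < y := by exact_mod_cast hy
  rw [le_div_iff₀ (by positivity)]
  have h1 : α ^ 3 * (y : ℝ) ^ 3 ≤ (x + α * y) * (x ^ 2 + α ^ 2 * y ^ 2) := by
    have : (x + α * y) * ((x : ℝ) ^ 2 + α ^ 2 * y ^ 2) = α ^ 3 * (y : ℝ) ^ 3 +
        (x ^ 3 + x * α ^ 2 * y ^ 2 + α * y * x ^ 2) := by ring
    rw [this]
    have h2 : 0 ≤ (x : ℝ) ^ 3 + x * α ^ 2 * y ^ 2 + α * y * x ^ 2 := by positivity
    linarith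
  calc |α * y - x| * (α ^ 3 * (y : ℝ) ^ 3)
      ≤ |α * y - x| * ((x + α * y) * (x ^ 2 + α ^ 2 * y ^ 2)) :=
        mul_le_mul_of_nonneg_left h1 (abs_nonneg _)
    _ = |(x : ℝ) ^ 4 - b * y ^ 4| := by
        have h3 : (0 : ℝ) < (x + α * y) * (x ^ 2 + α ^ 2 * y ^ 2) := by positivity
        rw [← abs_of_pos h3, ← abs_mul, ← hα4, ← abs_neg]
        congr 1
        ring
    _ ≤ C := h

theorem gap (b : ℤ) (α C : ℝ) (hb : 0 < b) (hα : 0 < α) (hα4 : α ^ 4 = b) (hC : 1 ≤ C)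
    (s d : ℕ) (hs : 0 < s) (hd : 0 < d) (hs4 : (128 * C ^ 2) ^ 3 ≤ (s : ℝ) ^ 4) (p q : ℕ → ℤ)
    (h : ∀ m : ℕ,
      |(p m : ℝ) - α * q m| ≤ 2 * 128 ^ m * C ^ (2 * m + 1) / s ^ (4 * m + 3) ∧
      |(q m : ℝ)| ≤ d * s ^ (4 * m) * 128 ^ m ∧
      p m * q (m + 1) - p (m + 1) * q m ≠ 0) :
    ∃ Y : ℕ, ∀ x y : ℕ, 0 < x → 0 < y → |(x : ℝ) ^ 4 - b * y ^ 4| ≤ C → y ≤ Y := by
  set K : ℝ := 128 * C ^ 2 with hK
  have hK128 : 128 ≤ K := by
    have : (1 : ℝ) ≤ C ^ 2 := one_le_pow₀ hC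
    rw [hK]
    linarith
  have hK0 : 0 < K := by linarith
  have hC0 : 0 < C := by linarith
  have hs0 : (0 : ℝ) < s := by exact_mod_cast hs
  have hs1 : (1 : ℝ) ≤ s := by exact_mod_cast hs
  have hd0 : (0 : ℝ) < d := by exact_mod_cast hd
  set ρ : ℝ := s ^ 4 / K with hρ
  have hρK : K ^ 2 ≤ ρ := by
    rw [hρ, le_div_iff₀ hK0]
    calc K ^ 2 * K = K ^ 3 := by ring
      _ ≤ _ := hs4
  have hρ1 : 1 < ρ := by
    have : 1 < K ^ 2 := one_lt_pow₀ (by linarith) two_ne_zero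
    linarith
  have hρ0 : 0 < ρ := by linarith
  have hsK : (s : ℝ) ^ 4 = K * ρ := by
    rw [hρ]
    field_simp
  set Q : ℝ := 32 * d * (128 * s ^ 4) ^ 2 * C ^ 3 / α ^ 3 with hQ
  have hQ0 : 0 < Q := by positivity
  refine ⟨⌈max ((s : ℝ) ^ 3) Q⌉₊, ?_⟩
  intro x y hx hy hxy
  by_contra hY
  push Not at hY
  have hY' : max ((s : ℝ) ^ 3) Q < y := lt_of_le_of_lt (Nat.le_ceil _) (by exact_mod_cast hY)
  have hys : (s : ℝ) ^ 3 < y := lt_of_le_of_lt (le_max_left _ _) hY'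
  have hyQ : Q < y := lt_of_le_of_lt (le_max_right _ _) hY'
  have hy0 : (0 : ℝ) < y := by exact_mod_cast hy
  have hdist := dist_le b α C hα hα4 x y hx hy hxy
  -- the first term
  have hT : ∀ m : ℕ, 2 * 128 ^ m * C ^ (2 * m + 1) / (s : ℝ) ^ (4 * m + 3) * y =
      (2 * C * y / s ^ 3) / ρ ^ m := by
    intro m
    have h1 : (s : ℝ) ^ (4 * m + 3) = K ^ m * ρ ^ m * s ^ 3 := by
      rw [pow_add, pow_mul, hsK, mul_pow]
    have h2 : (128 : ℝ) ^ m * C ^ (2 * m + 1) = K ^ m * C := by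
      rw [hK, mul_pow, pow_succ, pow_mul, mul_assoc]
    have h3 : 2 * 128 ^ m * C ^ (2 * m + 1) = 2 * (K ^ m * C) := by
      rw [← h2]
      ring
    rw [h1, h3]
    have hKm : K ^ m ≠ 0 := by positivity
    have hρm : ρ ^ m ≠ 0 := by positivity
    field_simp
  obtain ⟨m0, hm0⟩ := pow_unbounded_of_one_lt (4 * C * y / s ^ 3) hρ1
  have hex : ∃ m, 4 * C * y / s ^ 3 < ρ ^ m := ⟨m0, hm0⟩
  classical
  set m := Nat.find hex with hm
  have hm1 : 4 * C * y / s ^ 3 < ρ ^ m := Nat.find_spec hex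
  have hmpos : m ≠ 0 := by
    intro h0
    rw [h0, pow_zero, div_lt_one (by positivity)] at hm1
    nlinarith
  obtain ⟨k, hk⟩ := Nat.exists_eq_succ_of_ne_zero hmpos
  have hk1 : ρ ^ k ≤ 4 * C * y / s ^ 3 := by
    have h1 : k < m := by omega
    exact not_lt.mp (Nat.find_min hex h1)
  have hk2 : ρ ^ k ≤ 4 * C * y := by
    refine hk1.trans (div_le_self (by positivity) (one_le_pow₀ hs1))
  -- the main estimate
  have hmain : ∀ n : ℕ, m ≤ n → n ≤ m + 1 → p n * (y : ℤ) - q n * (x : ℤ) = 0 := by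
    intro n hn1 hn2
    obtain ⟨h1, h2, -⟩ := h n
    have hfirst : |(p n : ℝ) - α * q n| * y < 1 / 2 := by
      calc |(p n : ℝ) - α * q n| * y
          ≤ 2 * 128 ^ n * C ^ (2 * n + 1) / (s : ℝ) ^ (4 * n + 3) * y :=
            mul_le_mul_of_nonneg_right h1 hy0.le
        _ = (2 * C * y / s ^ 3) / ρ ^ n := hT n
        _ ≤ (2 * C * y / s ^ 3) / ρ ^ m :=
            div_le_div_of_nonneg_left (by positivity) (by positivity)
              (pow_le_pow_right₀ hρ1.le hn1)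
        _ < 1 / 2 := by
            rw [div_lt_iff₀ (by positivity)]
            have : 2 * C * y / s ^ 3 = 1 / 2 * (4 * C * y / s ^ 3) := by ring
            rw [this]
            exact mul_lt_mul_of_pos_left hm1 (by norm_num)
    have hpow : (128 * (s : ℝ) ^ 4) ^ n ≤ (128 * s ^ 4) ^ 2 * (4 * C * y) ^ 2 := by
      have hb1 : (1 : ℝ) ≤ 128 * s ^ 4 := by
        have : (1 : ℝ) ≤ s ^ 4 := one_le_pow₀ hs1
        linarith
      calc (128 * (s : ℝ) ^ 4) ^ n ≤ (128 * s ^ 4) ^ (k + 2) :=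
            pow_le_pow_right₀ hb1 (by omega)
        _ = (128 * s ^ 4) ^ 2 * (128 * (K * ρ)) ^ k := by rw [pow_add, hsK]; ring
        _ ≤ (128 * s ^ 4) ^ 2 * (ρ * ρ) ^ k := by
            apply mul_le_mul_of_nonneg_left _ (by positivity)
            apply pow_le_pow_left₀ (by positivity)
            have : 128 * K ≤ ρ := by nlinarith
            nlinarith
        _ = (128 * s ^ 4) ^ 2 * (ρ ^ k) ^ 2 := by rw [← mul_pow, mul_pow ρ ρ k]; ring
        _ ≤ (128 * s ^ 4) ^ 2 * (4 * C * y) ^ 2 := by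
            apply mul_le_mul_of_nonneg_left _ (by positivity)
            exact pow_le_pow_left₀ (by positivity) hk2 2
    have hsecond : |(q n : ℝ)| * |α * y - x| < 1 / 2 := by
      have h3 : |(q n : ℝ)| ≤ d * ((128 * s ^ 4) ^ 2 * (4 * C * y) ^ 2) := by
        calc |(q n : ℝ)| ≤ d * s ^ (4 * n) * 128 ^ n := h2
          _ = d * (128 * s ^ 4) ^ n := by rw [mul_pow, pow_mul]; ring
          _ ≤ _ := mul_le_mul_of_nonneg_left hpow hd0.le
      calc |(q n : ℝ)| * |α * y - x|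
          ≤ (d * ((128 * s ^ 4) ^ 2 * (4 * C * y) ^ 2)) * (C / (α ^ 3 * y ^ 3)) :=
            mul_le_mul h3 hdist (abs_nonneg _) (by positivity)
        _ = 1 / 2 * (Q / y) := by
            rw [hQ]
            field_simp
            ring
        _ < 1 / 2 := by
            have : Q / y < 1 := (div_lt_one hy0).mpr hyQ
            linarith
    have habs : |((p n * (y : ℤ) - q n * (x : ℤ) : ℤ) : ℝ)| < 1 := by
      have h4 : ((p n * (y : ℤ) - q n * (x : ℤ) : ℤ) : ℝ) =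
          ((p n : ℝ) - α * q n) * y + q n * (α * y - x) := by
        push_cast
        ring
      rw [h4]
      calc |((p n : ℝ) - α * q n) * y + q n * (α * y - x)|
          ≤ |((p n : ℝ) - α * q n) * y| + |q n * (α * y - x)| := abs_add_le _ _
        _ = |(p n : ℝ) - α * q n| * y + |(q n : ℝ)| * |α * y - x| := by
            rw [abs_mul, abs_mul, abs_of_pos hy0]
        _ < 1 := by linarith
    rw [← Int.cast_abs] at habs
    have h5 : |p n * (y : ℤ) - q n * (x : ℤ)| < 1 := by exact_mod_cast habs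
    exact Int.abs_lt_one_iff.mp h5
  have e1 := hmain m le_rfl (by omega)
  have e2 := hmain (m + 1) (by omega) le_rfl
  apply (h m).2.2
  have hyz : (y : ℤ) ≠ 0 := by exact_mod_cast hy.ne'
  have h6 : (p m * q (m + 1) - p (m + 1) * q m) * (y : ℤ) = 0 := by
    linear_combination q (m + 1) * e1 - q m * e2
  exact (mul_eq_zero.mp h6).resolve_right hyz

end H51.EF
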