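import Pool.Agent.H51.EF.Defs

/-!
# Inj : the multiples have different coordinates (60 lines)

If `2^k P` and `2^l P` have the same `x` then `2^k P = ± 2^l P` (`Affine.Point.X_eq_iff`), so
`(2^k - 2^l) P = 0` or `(2^k + 2^l) P = 0` (`sub_smul`, `natAbs`), and `n P ≠ 0` for `n ≥ 1`, so `k = l`.
-/

namespace H51.EF

open WeierstrassCurve

private theorem Inj_lt {F : Type} [Field F] [DecidableEq F] (W : Affine F) (P : W.Point)
    (hP : ∀ n : ℕ, 1 ≤ n → n • P ≠ 0) (k l : ℕ) (hkl : k < l) (h : 2 ^ k • P = 2 ^ l • P) :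
    False := by
  have h1 : 2 ^ k < 2 ^ l := Nat.pow_lt_pow_right (by norm_num) hkl
  refine hP (2 ^ l - 2 ^ k) (by omega) ?_
  have h2 : 2 ^ l = 2 ^ k + (2 ^ l - 2 ^ k) := by omega
  have h3 : 2 ^ l • P = 2 ^ k • P + (2 ^ l - 2 ^ k) • P := by
    rw [← add_smul, ← h2]
  rw [← h] at h3
  exact left_eq_add.1 h3

theorem pow_inj {F : Type} [Field F] [DecidableEq F] (W : Affine F) (P : W.Point)
    (hP : ∀ n : ℕ, 1 ≤ n → n • P ≠ 0) (k l : ℕ) (x y y' : F) (h : W.Nonsingular x y)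
    (h' : W.Nonsingular x y') (hk : 2 ^ k • P = .some x y h) (hl : 2 ^ l • P = .some x y' h') :
    k = l := by
  rcases (Affine.Point.X_eq_iff (h₁ := h) (h₂ := h')).1 rfl with h1 | h1
  · rw [← hk, ← hl] at h1
    rcases lt_trichotomy k l with h2 | h2 | h2
    · exact (Inj_lt W P hP k l h2 h1).elim
    · exact h2
    · exact (Inj_lt W P hP l k h2 h1.symm).elim
  · rw [← hk, ← hl] at h1
    have h2 : 1 ≤ 2 ^ k := Nat.one_le_two_pow
    refine absurd ?_ (hP (2 ^ k + 2 ^ l) (h2.trans (Nat.le_add_right _ _)))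
    rw [add_smul, h1, neg_add_cancel]

end H51.EF
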