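import Pool.Agent.H51.EF.Defs

/-!
# Tors : the rational point of order two (90 lines)

`T = (x, y)`, `2 T = 0`, `T ≠ 0`: `T = -T`, so `y = negY x y`, i.e. `2 y + a₁ x + a₃ = 0`; with the equation
`4 x^3 + b₂ x^2 + 2 b₄ x + b₆ = (2 y + a₁ x + a₃)^2 = 0`. So `e = 4 x` is a root of the monic polynomial
`X^3 + b₂ X^2 + 8 b₄ X + 16 b₆` with integer coefficients, hence an integer (`isInteger_of_is_root_of_monic` or
`IsIntegrallyClosed`, `IsIntegral` over `ℤ` in `ℚ`).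
`disc`: with `A = 3 e + b₂`, `B = 3 e^2 + 2 b₂ e + 8 b₄` and the root equation: `B^2 (A^2 - 4 B) = 256 Δ`
(`Δ = -b₂^2 b₈ - 8 b₄^3 - 27 b₆^2 + 9 b₂ b₄ b₆`, `4 b₈ = b₂ b₆ - b₄^2`, `linear_combination`).
-/

namespace H51.EF

open WeierstrassCurve

open Polynomial in
private theorem tors_int (a b c : ℤ) (q : ℚ) (h : q ^ 3 + a * q ^ 2 + b * q + c = 0) :
    ∃ e : ℤ, (e : ℚ) = q := by
  have hint : IsIntegral ℤ q := by
    refine ⟨X ^ 3 + C a * X ^ 2 + C b * X + C c, ?_, ?_⟩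
    · monicity!
    · rw [eval₂_add, eval₂_add, eval₂_add, eval₂_mul, eval₂_mul, eval₂_pow, eval₂_pow, eval₂_X,
        eval₂_C, eval₂_C, eval₂_C]
      exact h
  obtain ⟨e, he⟩ := IsIntegrallyClosed.isIntegral_iff.1 hint
  exact ⟨e, by simpa using he⟩

theorem tors (W : WeierstrassCurve ℤ) (T : (W.map (Int.castRingHom ℚ)).toAffine.Point) (hT : T ≠ 0)
    (h2 : T + T = 0) : ∃ e : ℤ, e ^ 3 + W.b₂ * e ^ 2 + 8 * W.b₄ * e + 16 * W.b₆ = 0 := by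
  rcases T with _ | ⟨x, y, hns⟩
  · exact absurd rfl hT
  · have hneg := eq_neg_of_add_eq_zero_left h2
    rw [Affine.Point.neg_some] at hneg
    have hy : y = (W.map (Int.castRingHom ℚ)).toAffine.negY x y := by
      simpa using hneg
    have heq := hns.1
    rw [Affine.equation_iff] at heq
    rw [Affine.negY] at hy
    simp only [WeierstrassCurve.map, eq_intCast] at heq hy
    have hroot : (4 * x) ^ 3 + (W.b₂ : ℚ) * (4 * x) ^ 2 + ((8 * W.b₄ : ℤ) : ℚ) * (4 * x) +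
        ((16 * W.b₆ : ℤ) : ℚ) = 0 := by
      simp only [WeierstrassCurve.b₂, WeierstrassCurve.b₄, WeierstrassCurve.b₆]
      push_cast
      linear_combination (16 * (2 * y + W.a₁ * x + W.a₃)) * hy - 64 * heq
    obtain ⟨e, he⟩ := tors_int _ _ _ _ hroot
    refine ⟨e, ?_⟩
    rw [← he] at hroot
    exact_mod_cast hroot

theorem disc (W : WeierstrassCurve ℤ) (e : ℤ)
    (he : e ^ 3 + W.b₂ * e ^ 2 + 8 * W.b₄ * e + 16 * W.b₆ = 0) :
    (3 * e ^ 2 + 2 * W.b₂ * e + 8 * W.b₄) ^ 2 *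
      ((3 * e + W.b₂) ^ 2 - 4 * (3 * e ^ 2 + 2 * W.b₂ * e + 8 * W.b₄)) = 256 * W.Δ := by
  rw [WeierstrassCurve.Δ]
  linear_combination (-27 * e ^ 3 - 27 * W.b₂ * e ^ 2 - 216 * W.b₄ * e + 4 * W.b₂ ^ 3 -
    144 * W.b₂ * W.b₄ + 432 * W.b₆) * he + 64 * W.b₂ ^ 2 * W.b_relation

end H51.EF
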