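import Pool.Agent.H51.EF.Prime
import Pool.Agent.H51.EF.Tors
import Pool.Agent.H51.EF.Dbl
import Pool.Agent.H51.EF.Den
import Pool.Agent.H51.EF.Inj

/-!
# Main : only finitely many elliptic Fermat numbers are prime if there is a rational point of order two
-/

namespace H51.EF

open WeierstrassCurve

theorem fermat_fin (W : WeierstrassCurve ℤ) (hW : W.Δ ≠ 0)
    (P : (W.map (Int.castRingHom ℚ)).toAffine.Point) (A B : ℕ → ℤ) (D : ℕ → ℕ)
    (hD : ∀ n, 1 ≤ n → 1 ≤ D n ∧ IsCoprime (A n) (D n : ℤ) ∧ IsCoprime (B n) (D n : ℤ) ∧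
      ∃ h, n • P = .some ((A n : ℚ) / (D n : ℚ) ^ 2) ((B n : ℚ) / (D n : ℚ) ^ 3) h)
    (T : (W.map (Int.castRingHom ℚ)).toAffine.Point) (hT : T ≠ 0) (h2 : 2 • T = 0) :
    {k : ℕ | ∃ p : ℕ, p.Prime ∧ D (2 ^ (k + 1)) = p * D (2 ^ k)}.Finite := by
  obtain ⟨e, he⟩ := tors W T hT (by rw [← two_nsmul]; exact h2)
  have hdisc := disc W e he
  set a : ℤ := 3 * e + W.b₂ with ha
  set b : ℤ := 3 * e ^ 2 + 2 * W.b₂ * e + 8 * W.b₄ with hb
  have hpow : ∀ k : ℕ, 1 ≤ 2 ^ k := fun k => Nat.one_le_two_pow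
  choose h1 h3 h4 hns hpt using fun k : ℕ => hD (2 ^ k) (hpow k)
  let x : ℕ → ℚ := fun k => (A (2 ^ k) : ℚ) / (D (2 ^ k) : ℚ) ^ 2
  let y : ℕ → ℚ := fun k => (B (2 ^ k) : ℚ) / (D (2 ^ k) : ℚ) ^ 3
  let u : ℕ → ℚ := fun k => 4 * x k - e
  let Y : ℕ → ℚ := fun k => 4 * (2 * y k + W.a₁ * x k + W.a₃)
  have hdbl : ∀ k, Affine.Point.some (x k) (y k) (hns k) + Affine.Point.some (x k) (y k) (hns k) =
      Affine.Point.some (x (k + 1)) (y (k + 1)) (hns (k + 1)) := by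
    intro k
    rw [← hpt k, ← hpt (k + 1), ← two_nsmul, smul_smul, pow_succ']
  have hP : ∀ n : ℕ, 1 ≤ n → n • P ≠ 0 := by
    intro n hn
    obtain ⟨_, _, _, h, hh⟩ := hD n hn
    rw [hh]
    exact Affine.Point.some_ne_zero h
  have hΔ : (256 : ℤ) * W.Δ ≠ 0 := mul_ne_zero (by norm_num) hW
  have hSq : Sq a b u Y := by
    refine ⟨?_, ?_, ?_, ?_, ?_, ?_⟩
    · intro h0
      rw [h0] at hdisc
      apply hΔ
      rw [← hdisc]; ring
    · intro h0
      rw [h0] at hdisc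
      apply hΔ
      rw [← hdisc]; ring
    · intro k
      exact curve_eq W e he (x k) (y k) (hns k).1
    · intro k
      have := (dbl_eq W e he _ _ _ _ (hns k) (hns (k + 1)) (hdbl k)).1
      exact mul_ne_zero (by norm_num) this
    · intro k
      exact (dbl_eq W e he _ _ _ _ (hns k) (hns (k + 1)) (hdbl k)).2
    · intro q
      refine Set.Subsingleton.finite ?_
      intro k hk l hl
      have hxx : x k = x l := by
        have h5 : u k = u l := by
          rw [show u k = q from hk, show u l = q from hl]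
        have h6 : 4 * x k - e = 4 * x l - e := h5
        linarith
      have hl' : 2 ^ l • P = Affine.Point.some (x k) (y l) (by rw [hxx]; exact hns l) := by
        rw [hpt l]
        simp only [hxx, x, y]
      exact pow_inj _ P hP k l (x k) (y k) (y l) (hns k) _ (hpt k) hl'
  choose d hd0 hd using fun k => den_sq (hSq.curve k)
  have hcmp : ∀ k, D (2 ^ k) = d k ∨ D (2 ^ k) = 2 * d k := fun k =>
    den_cmp (A (2 ^ k)) e (D (2 ^ k)) (d k) (h1 k) (hd0 k) (h3 k) (hd k)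
  have hc : ∀ k, ∃ c : ℕ, 1 ≤ c ∧ c ≤ 2 ∧ D (2 ^ k) = c * d k := by
    intro k
    rcases hcmp k with h | h
    · exact ⟨1, le_rfl, by norm_num, by rw [h, one_mul]⟩
    · exact ⟨2, by norm_num, le_rfl, h⟩
  refine (prime_fin hSq hd).subset ?_
  rintro k ⟨p, hp, hk⟩
  obtain ⟨c, hc1, hc2, hc3⟩ := hc k
  obtain ⟨c', hc1', hc2', hc3'⟩ := hc (k + 1)
  exact ⟨p, c, c', hp, hc1, hc2, hc1', hc2', by rw [← hc3', hk, hc3, mul_assoc]⟩

end H51.EF
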