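import Pool.Agent.H51.EF.Thue

/-!
# Num : bounded numerators (140 lines)

`sq_succ`: `u (k+1) = ((u k ^ 2 - b) / (2 Y k)) ^ 2`.
`gcd_bound`: integers `S, d` coprime, `X = S^4 - b d^4`, `N = S^4 + a S^2 d^2 + b d^4`. Every common divisor `g` of
`X^2` and `4 S^2 d^2 N` divides `K = 4 * b^2 * (b^2 (a^2 - 4 b))^2`. Proof with gcds: `gcd(X, d) = 1`;
`gcd(X, S) ∣ b` (it divides `b d^4` and is prime to `d`); `g₁ = gcd(X, N)` is prime to `d` and divides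
`N + X = S^2 (2 S^2 + a d^2)` and `N - X = d^2 (a S^2 + 2 b d^2)`, so `g₁ ∣ a S^2 + 2 b d^2` and
`g₁ ∣ b^2 (2 S^2 + a d^2)` (`gcd(g₁, S^2) ∣ b^2`), hence
`g₁ ∣ b^2 a (2 S^2 + a d^2) - 2 b^2 (a S^2 + 2 b d^2) = b^2 (a^2 - 4 b) d^2`, so `g₁ ∣ b^2 (a^2 - 4 b)`. Finally
`gcd(X^2, 4 S^2 d^2 N)` divides `4 * gcd(X^2, S^2) * gcd(X^2, d^2) * gcd(X^2, N)`, `gcd(X^2,S^2) = gcd(X,S)^2 ∣ b^2`,
`gcd(X^2, N) ∣ g₁^2`. (Statement as a divisibility, form to be used: `X^2 ∣ r * (4 S^2 d^2 N) → X^2 ∣ r * K`.)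
`num_fin`: for `k ≥ 1`, `u k = (S/d)^2` is a square of a rational number `S / d` in lowest terms, and
`u (k+1) = X^2 / (4 S^2 d^2 N)` (from `dbl`, `curve`). With `r = num`, `t = den` of `u (k+1)`:
`r * (4 S^2 d^2 N) = X^2 * t`, so `X^2 ∣ r K`; `r ≠ 0` (`u (k+1) = 0` contradicts `curve`, `ne`), so
`X^2 ≤ |r| K`. If `|r| ≤ C` then `|X| ≤ X^2 ≤ C K` and `X ≠ 0` (otherwise `u (k+1) = 0`), so `(S, d)` is in the
finite set of `thue`, `u k` is in a finite set, and `k` is in a finite set by `fin`.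
-/

namespace H51.EF

theorem gcd_bound (a b S d r : ℤ) (h : IsCoprime S d)
    (hd : (S ^ 4 - b * d ^ 4) ^ 2 ∣ r * (4 * S ^ 2 * d ^ 2 * (S ^ 4 + a * S ^ 2 * d ^ 2 + b * d ^ 4))) :
    (S ^ 4 - b * d ^ 4) ^ 2 ∣ r * (4 * b ^ 2 * (b ^ 2 * (a ^ 2 - 4 * b)) ^ 2) := by
  have hX : IsCoprime (S ^ 4 - b * d ^ 4) d := by
    have h1 : IsCoprime (S ^ 4) d := h.pow_left
    have h2 : S ^ 4 - b * d ^ 4 = S ^ 4 + d * (-(b * d ^ 3)) := by ring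
    rw [h2]
    exact h1.add_mul_left_left _
  have hc : ∀ m : ℕ, IsCoprime ((S ^ 4 - b * d ^ 4) ^ 2) (d ^ m) := fun m => hX.pow
  have s1 : (S ^ 4 - b * d ^ 4) ^ 2 ∣ r * 4 * (S ^ 4 + a * S ^ 2 * d ^ 2 + b * d ^ 4) * S ^ 2 := by
    refine (hc 2).dvd_of_dvd_mul_left ?_
    have h2 : d ^ 2 * (r * 4 * (S ^ 4 + a * S ^ 2 * d ^ 2 + b * d ^ 4) * S ^ 2) =
        r * (4 * S ^ 2 * d ^ 2 * (S ^ 4 + a * S ^ 2 * d ^ 2 + b * d ^ 4)) := by ring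
    rw [h2]
    exact hd
  have s2 : (S ^ 4 - b * d ^ 4) ^ 2 ∣ r * 4 * b ^ 2 * (S ^ 4 + a * S ^ 2 * d ^ 2 + b * d ^ 4) := by
    refine (hc 8).dvd_of_dvd_mul_left ?_
    obtain ⟨w, hw⟩ := s1
    refine ⟨w * (S ^ 6 - 2 * S ^ 2 * (S ^ 4 - b * d ^ 4)) +
      r * 4 * (S ^ 4 + a * S ^ 2 * d ^ 2 + b * d ^ 4), ?_⟩
    linear_combination (S ^ 6 - 2 * S ^ 2 * (S ^ 4 - b * d ^ 4)) * hw
  refine (hc 20).dvd_of_dvd_mul_left ?_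
  obtain ⟨w, hw⟩ := s2
  set al : ℤ := a * (S ^ 6 + ((S ^ 4 - b * d ^ 4) - 2 * S ^ 4) * (2 * S ^ 2 + a * d ^ 2)) +
    2 * b ^ 2 * d ^ 6 with hal
  set be : ℤ := a * S ^ 6 - 2 * b ^ 2 * d ^ 6 with hbe
  have hk : b ^ 2 * (a ^ 2 - 4 * b) * d ^ 10 = al * (S ^ 4 - b * d ^ 4) +
      be * (S ^ 4 + a * S ^ 2 * d ^ 2 + b * d ^ 4) := by
    rw [hal, hbe]; ring
  refine ⟨w * (2 * al * be * (S ^ 4 - b * d ^ 4) +
    be ^ 2 * (S ^ 4 + a * S ^ 2 * d ^ 2 + b * d ^ 4)) + r * 4 * b ^ 2 * al ^ 2, ?_⟩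
  have h3 : d ^ 20 * (r * (4 * b ^ 2 * (b ^ 2 * (a ^ 2 - 4 * b)) ^ 2)) =
      r * 4 * b ^ 2 * (b ^ 2 * (a ^ 2 - 4 * b) * d ^ 10) ^ 2 := by ring
  rw [h3, hk]
  linear_combination (2 * al * be * (S ^ 4 - b * d ^ 4) +
    be ^ 2 * (S ^ 4 + a * S ^ 2 * d ^ 2 + b * d ^ 4)) * hw

private theorem num_key {a b : ℤ} {u Y : ℕ → ℚ} (h : Sq a b u Y) (C : ℕ) (j : ℕ)
    (hC : (u (j + 2)).num.natAbs ≤ C) :
    ∃ S d : ℤ, S ^ 4 ≠ b * d ^ 4 ∧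
      |S ^ 4 - b * d ^ 4| ≤ C * (4 * b ^ 2 * (b ^ 2 * (a ^ 2 - 4 * b)) ^ 2) ∧
      u (j + 1) = ((S : ℚ) / (d : ℚ)) ^ 2 := by
  have hY0 := h.ne j
  have hY1 := h.ne (j + 1)
  set v : ℚ := (u j ^ 2 - b) / (2 * Y j) with hv
  have hu1 : u (j + 1) = v ^ 2 := by
    rw [h.dbl, hv, div_pow]
    congr 1
    ring
  have hc := h.curve (j + 1)
  have hd := h.dbl (j + 1)
  rw [eq_div_iff (by positivity)] at hd
  have hu2 : u (j + 1 + 1) ≠ 0 := by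
    intro h0
    have h1 := h.curve (j + 1 + 1)
    rw [h0, zero_mul] at h1
    exact h.ne (j + 1 + 1) (pow_eq_zero_iff (two_ne_zero) |>.1 h1.symm)
  set S : ℤ := v.num with hS
  set d : ℤ := (v.den : ℤ) with hdd
  have hd0 : (d : ℚ) ≠ 0 := by
    rw [hdd]
    exact_mod_cast v.den_ne_zero
  have hvS : v = (S : ℚ) / (d : ℚ) := by
    rw [hS, hdd]
    push_cast
    exact (Rat.num_div_den v).symm
  have hvd : v * d = S := by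
    rw [hvS]
    field_simp
  have hcop : IsCoprime S d := by
    rw [hS, hdd, Int.isCoprime_iff_gcd_eq_one]
    exact v.reduced
  set X : ℤ := S ^ 4 - b * d ^ 4 with hX
  set N : ℤ := S ^ 4 + a * S ^ 2 * d ^ 2 + b * d ^ 4 with hN
  have hXQ : (X : ℚ) = (u (j + 1) ^ 2 - b) * d ^ 4 := by
    rw [hX, hu1]
    push_cast
    rw [← hvd]
    ring
  have hNQ : (N : ℚ) = (u (j + 1) ^ 2 + a * u (j + 1) + b) * d ^ 4 := by
    rw [hN, hu1]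
    push_cast
    rw [← hvd]
    ring
  have hmain : u (j + 1 + 1) * (4 * (S : ℚ) ^ 2 * (d : ℚ) ^ 2 * (N : ℚ)) = (X : ℚ) ^ 2 := by
    rw [hXQ, mul_pow, ← hd, ← hc, hNQ, ← hvd, hu1]
    ring
  have hX0 : X ≠ 0 := by
    intro h0
    rw [h0, Int.cast_zero] at hXQ
    have h1 : u (j + 1) ^ 2 - b = 0 := by
      rcases mul_eq_zero.1 hXQ.symm with h1 | h1
      · exact h1
      · exact absurd h1 (pow_ne_zero 4 hd0)
    rw [h1] at hd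
    have h2 : u (j + 1 + 1) * (4 * Y (j + 1) ^ 2) = 0 := by rw [hd]; ring
    rcases mul_eq_zero.1 h2 with h3 | h3
    · exact hu2 h3
    · exact absurd h3 (by positivity)
  have hrt : ((u (j + 1 + 1)).num : ℚ) * (4 * (S : ℚ) ^ 2 * (d : ℚ) ^ 2 * (N : ℚ)) =
      (X : ℚ) ^ 2 * ((u (j + 1 + 1)).den : ℚ) := by
    rw [← hmain]
    have h1 : (u (j + 1 + 1)) * ((u (j + 1 + 1)).den : ℚ) = ((u (j + 1 + 1)).num : ℚ) :=
      Rat.mul_den_eq_num _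
    rw [← h1]
    ring
  have hrt' : (u (j + 1 + 1)).num * (4 * S ^ 2 * d ^ 2 * N) = X ^ 2 * ((u (j + 1 + 1)).den : ℤ) := by
    exact_mod_cast hrt
  have hdv := gcd_bound a b S d (u (j + 1 + 1)).num hcop ⟨_, hrt'⟩
  have hnum : (u (j + 1 + 1)).num ≠ 0 := by
    rw [Ne, Rat.num_eq_zero]
    exact hu2
  have hKpos : 0 < 4 * b ^ 2 * (b ^ 2 * (a ^ 2 - 4 * b)) ^ 2 := by
    have h1 : 0 < b ^ 2 := by have := h.hb; positivity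
    have h2 : b ^ 2 * (a ^ 2 - 4 * b) ≠ 0 := mul_ne_zero h1.ne' h.hab
    have h3 : 0 < (b ^ 2 * (a ^ 2 - 4 * b)) ^ 2 := by positivity
    positivity
  have hle := Int.le_of_dvd (a := X ^ 2)
    (b := |(u (j + 1 + 1)).num * (4 * b ^ 2 * (b ^ 2 * (a ^ 2 - 4 * b)) ^ 2)|)
    (abs_pos.2 (mul_ne_zero hnum hKpos.ne')) ((dvd_abs _ _).2 hdv)
  rw [abs_mul, abs_of_pos hKpos] at hle
  have hr : |(u (j + 1 + 1)).num| ≤ (C : ℤ) := by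
    rw [Int.abs_eq_natAbs]
    exact_mod_cast hC
  refine ⟨S, d, ?_, ?_, ?_⟩
  · intro h0
    exact hX0 (by rw [hX, h0, sub_self])
  · have h1 : |X| ≤ X ^ 2 := by
      rw [← sq_abs X]
      have : 1 ≤ |X| := Int.one_le_abs hX0
      nlinarith
    calc |X| ≤ X ^ 2 := h1
      _ ≤ |(u (j + 1 + 1)).num| * (4 * b ^ 2 * (b ^ 2 * (a ^ 2 - 4 * b)) ^ 2) := hle
      _ ≤ C * (4 * b ^ 2 * (b ^ 2 * (a ^ 2 - 4 * b)) ^ 2) :=
        mul_le_mul_of_nonneg_right hr hKpos.le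
  · rw [hu1, hvS]

theorem num_fin {a b : ℤ} {u Y : ℕ → ℚ} (h : Sq a b u Y) (C : ℕ) :
    {k | (u k).num.natAbs ≤ C}.Finite := by
  have hT := thue b h.hb (C * (4 * b ^ 2 * (b ^ 2 * (a ^ 2 - 4 * b)) ^ 2))
  have hF := hT.image (fun p : ℤ × ℤ => ((p.1 : ℚ) / (p.2 : ℚ)) ^ 2)
  have hG := Set.Finite.preimage' hF (fun q _ => h.fin q)
  refine ((Set.finite_le_nat 1).union (hG.image (fun k => k + 1))).subset ?_
  intro k hk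
  rcases Nat.lt_or_ge k 2 with h2 | h2
  · left
    change k ≤ 1
    omega
  · right
    obtain ⟨j, rfl⟩ : ∃ j, k = j + 2 := ⟨k - 2, by omega⟩
    obtain ⟨S, d, h3, h4, h5⟩ := num_key h C j hk
    exact ⟨j + 1, ⟨(S, d), ⟨h3, h4⟩, h5.symm⟩, rfl⟩

end H51.EF
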