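import Pool.Agent.H51.EF.Defs

/-!
# Step : integers behind one doubling (150 lines)

`den_sq`: let `u = A / e` in lowest terms, `e > 0`; `u (u^2 + a u + b) = A (A^2 + a A e + b e^2) / e^3 = Y^2`,
so `e * A (A^2 + a A e + b e^2) = (e^2 Y)^2` is a rational, hence integral, square, the two factors are coprime,
so `e` is a square (`Int.sq_of_isCoprime` or `Nat`/`Int` `exists_associated_pow_of_mul_eq_pow`; `e > 0`).

`step`: `A = num (u k)`, `N = A^2 + a A d^2 + b d^4`, `B = Y k d^3` (an integer, `B^2 = A N`). Then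
`u (k+1) = (A^2 - b d^4)^2 / (4 B^2 d^2)`, so with `g = gcd(A^2 - b d^4, 2 B d)`: `d (k+1) = 2 |B| d / g`, i.e.
`d (k+1) * g = 2 |B| d`. `g` divides `G = 2 b^2 (a^2 - 4 b)`: `g^2 ∣ 4 A N d^2` and `g ∣ X = A^2 - b d^4`;
`gcd(X, d) = 1`, `gcd(X, A) ∣ b`, `gcd(X, N) ∣ b (a^2 - 4 b)` (as in module Num: `N + X = A (2A + a d^2)`,
`N - X = d^2 (a A + 2 b d^2)`), so `g^2 ∣ 4 * b^2 * (b (a^2 - 4 b))^2`.
-/

namespace H51.EF

private lemma int_of_sq {q : ℚ} {M : ℤ} (h : q ^ 2 = (M : ℚ)) : ∃ B : ℤ, q = B := by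
  have h1 : (q ^ 2).den = 1 := by rw [h]; exact Rat.den_intCast M
  rw [Rat.den_pow] at h1
  have h2 : q.den = 1 := by
    rcases Nat.pow_eq_one.1 h1 with h | h
    · exact h
    · omega
  exact ⟨q.num, ((Rat.den_eq_one_iff q).1 h2).symm⟩

private lemma cop_num_den (u : ℚ) : IsCoprime u.num (u.den : ℤ) := by
  rw [Int.isCoprime_iff_nat_coprime]
  exact u.reduced

theorem den_sq {a b : ℤ} {u Y : ℚ} (h : u * (u ^ 2 + a * u + b) = Y ^ 2) :
    ∃ d : ℕ, 0 < d ∧ u.den = d ^ 2 := by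
  have he : (u.den : ℚ) ≠ 0 := by exact_mod_cast u.den_nz
  have hu : u = (u.num : ℚ) / (u.den : ℚ) := (Rat.num_div_den u).symm
  have hcop := cop_num_den u
  set A : ℤ := u.num with hA
  set e : ℕ := u.den with hee
  have h1 : ((e : ℚ) ^ 2 * Y) ^ 2 =
      ((((e : ℤ) * (A * (A ^ 2 + a * A * e + b * (e : ℤ) ^ 2))) : ℤ) : ℚ) := by
    rw [mul_pow, ← h, hu]
    push_cast
    field_simp
  obtain ⟨B, hB⟩ := int_of_sq h1
  rw [hB] at h1
  have h2 : (e : ℤ) * (A * (A ^ 2 + a * A * e + b * (e : ℤ) ^ 2)) = B ^ 2 := by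
    exact_mod_cast h1.symm
  have h3 : IsCoprime (e : ℤ) (A * (A ^ 2 + a * A * e + b * (e : ℤ) ^ 2)) := by
    refine IsCoprime.mul_right hcop.symm ?_
    have h4 : A ^ 2 + a * A * e + b * (e : ℤ) ^ 2 = A ^ 2 + (e : ℤ) * (a * A + b * e) := by ring
    rw [h4]
    exact (IsCoprime.pow_right (n := 2) hcop.symm).add_mul_left_right _
  obtain ⟨a0, h4⟩ := Int.sq_of_isCoprime h3 h2
  have hepos : (0 : ℤ) < e := by exact_mod_cast u.den_pos
  have h5 : (e : ℤ) = a0 ^ 2 := by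
    rcases h4 with h4 | h4
    · exact h4
    · nlinarith [sq_nonneg a0]
  refine ⟨a0.natAbs, ?_, ?_⟩
  · rw [Int.natAbs_pos]
    rintro rfl
    rw [h5] at hepos
    norm_num at hepos
  · have h6 : ((e : ℕ) : ℤ) = ((a0.natAbs ^ 2 : ℕ) : ℤ) := by
      rw [h5]
      push_cast
      rw [sq_abs]
    exact_mod_cast h6

/-- divide by a factor coprime to the modulus -/
private lemma mem_of_cop {g N c E : ℤ} (hE : IsCoprime E g) (h : ∃ x y, c * E = x * g + y * N) :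
    ∃ x y, c = x * g + y * N := by
  obtain ⟨x, y, hxy⟩ := h
  obtain ⟨r, s, hrs⟩ := hE
  refine ⟨c * s + r * x, r * y, ?_⟩
  calc c = c * (r * E + s * g) := by rw [hrs, mul_one]
    _ = r * (c * E) + c * s * g := by ring
    _ = _ := by rw [hxy]; ring

theorem step {a b : ℤ} {u Y : ℕ → ℚ} (h : Sq a b u Y) {d : ℕ → ℕ} (hd : ∀ k, (u k).den = d k ^ 2)
    (k : ℕ) : ∃ (A N : ℤ) (g : ℕ), A = (u k).num ∧ N = A ^ 2 + a * A * d k ^ 2 + b * d k ^ 4 ∧
      0 < g ∧ (g : ℤ) ∣ 2 * b ^ 2 * (a ^ 2 - 4 * b) ∧ (d (k + 1) * g) ^ 2 = 4 * (A * N).natAbs * d k ^ 2 ∧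
      0 < A * N ∧ ((Int.gcd A N : ℕ) : ℤ) ∣ b ∧ ((Y k ^ 2 / u k ^ 2).num ∣ N) := by
  have hD0 : d k ≠ 0 := by
    intro h0
    have := (u k).den_nz
    rw [hd k, h0] at this
    exact this (by norm_num)
  have hDQ : (d k : ℚ) ≠ 0 := by exact_mod_cast hD0
  have hDZ : (d k : ℤ) ≠ 0 := by exact_mod_cast hD0
  have hu : u k = ((u k).num : ℚ) / (d k : ℚ) ^ 2 := by
    have h1 := (Rat.num_div_den (u k)).symm
    rw [hd k] at h1
    push_cast at h1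
    exact h1
  have hcop : IsCoprime (u k).num (d k : ℤ) := by
    have h1 := cop_num_den (u k)
    rw [hd k] at h1
    push_cast at h1
    exact (IsCoprime.pow_right_iff (by norm_num)).1 h1
  have hcurve := h.curve k
  have hdbl := h.dbl k
  have hY := h.ne k
  set A : ℤ := (u k).num with hA
  set D : ℤ := (d k : ℤ) with hD
  have hDQ' : (D : ℚ) = (d k : ℚ) := by rw [hD]; norm_cast
  have hDQ0 : (D : ℚ) ≠ 0 := by rw [hDQ']; exact hDQ
  rw [← hDQ'] at hu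
  set N : ℤ := A ^ 2 + a * A * D ^ 2 + b * D ^ 4 with hN
  -- `B = Y D^3` is an integer
  have hB2 : ((D : ℚ) ^ 3 * Y k) ^ 2 = ((A * N : ℤ) : ℚ) := by
    rw [mul_pow, ← hcurve, hu, hN]
    push_cast
    field_simp
  obtain ⟨B, hB⟩ := int_of_sq hB2
  have hBne : B ≠ 0 := by
    rintro rfl
    rw [Int.cast_zero, mul_eq_zero] at hB
    rcases hB with hB | hB
    · exact hDQ0 (pow_eq_zero_iff (by norm_num) |>.1 hB)
    · exact hY hB
  have hAN : A * N = B ^ 2 := by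
    rw [hB] at hB2
    exact_mod_cast hB2.symm
  have hANpos : 0 < A * N := by
    rw [hAN]; positivity
  have hA0 : A ≠ 0 := by
    rintro h0
    rw [h0, zero_mul] at hANpos
    exact lt_irrefl _ hANpos
  have hYB : Y k = (B : ℚ) / (D : ℚ) ^ 3 := by
    rw [eq_div_iff (pow_ne_zero 3 hDQ0), ← hB]; ring
  set X : ℤ := A ^ 2 - b * D ^ 4 with hX
  set Z : ℤ := 2 * B * D with hZ
  have hZ0 : Z ≠ 0 := mul_ne_zero (mul_ne_zero (by norm_num) hBne) hDZ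
  have hw : u (k + 1) = ((X : ℚ) / (Z : ℚ)) ^ 2 := by
    rw [hdbl, hu, hYB, hX, hZ]
    have hBQ : (B : ℚ) ≠ 0 := by exact_mod_cast hBne
    push_cast
    field_simp
    ring
  have hdw : d (k + 1) = ((X : ℚ) / (Z : ℚ)).den := by
    have h1 := hd (k + 1)
    rw [hw, Rat.den_pow] at h1
    exact (Nat.pow_left_injective (n := 2) (by norm_num) h1).symm
  have hdg : d (k + 1) * Int.gcd X Z = Z.natAbs := by
    rw [hdw, ← Rat.divInt_eq_div, Rat.den_divInt, if_neg hZ0, Int.gcd_comm Z X]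
    exact Nat.div_mul_cancel (Int.gcd_dvd_natAbs_right X Z)
  -- coprimality
  have hXD : IsCoprime X D := by
    have h1 : X = A ^ 2 + D * (-(b * D ^ 3)) := by rw [hX]; ring
    rw [h1]
    exact (IsCoprime.pow_left (m := 2) hcop).add_mul_left_left _
  set g : ℤ := ((Int.gcd X Z : ℕ) : ℤ) with hg
  have hgX : g ∣ X := Int.gcd_dvd_left X Z
  have hgZ : g ∣ Z := Int.gcd_dvd_right X Z
  have hgD : IsCoprime g D := IsCoprime.of_isCoprime_of_dvd_left hXD hgX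
  obtain ⟨X', hX'⟩ := hgX
  -- `b` in the ideal of `g`, `A`
  have hb : ∃ x y, b = x * g + y * A := by
    refine mem_of_cop (E := D ^ 4) (hgD.symm.pow_left) ⟨-X', A, ?_⟩
    have h1 : b * D ^ 4 = A ^ 2 - X := by rw [hX]; ring
    rw [h1, hX']; ring
  have hc : ∃ x y, b * (a ^ 2 - 4 * b) = x * g + y * N := by
    refine mem_of_cop (E := D ^ 6) (hgD.symm.pow_left)
      ⟨-(a * A - 2 * b * D ^ 2 + a ^ 2 * D ^ 2) * X', a * A - 2 * b * D ^ 2, ?_⟩
    have h1 : b * (a ^ 2 - 4 * b) * D ^ 6 = (a * A - 2 * b * D ^ 2) * N -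
        (a * A - 2 * b * D ^ 2 + a ^ 2 * D ^ 2) * X := by rw [hX, hN]; ring
    rw [h1, hX']; ring
  have hg2 : g ^ 2 ∣ 4 * (A * N) := by
    have h1 : g ∣ 2 * B := by
      refine hgD.dvd_of_dvd_mul_right ?_
      rw [← hZ]; exact hgZ
    have h2 := pow_dvd_pow_of_dvd h1 2
    rw [hAN]
    have h3 : (2 * B) ^ 2 = 4 * B ^ 2 := by ring
    rwa [h3] at h2
  have hgG : g ∣ 2 * b ^ 2 * (a ^ 2 - 4 * b) := by
    obtain ⟨x, y, h1⟩ := hb
    obtain ⟨x', y', h2⟩ := hc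
    obtain ⟨w, hw'⟩ := hg2
    rw [← Int.pow_dvd_pow_iff (n := 2) (by norm_num)]
    have h3 : (2 * b ^ 2 * (a ^ 2 - 4 * b)) ^ 2 = 4 * (b ^ 2 * (b * (a ^ 2 - 4 * b)) ^ 2) := by ring
    have h4 : b ^ 2 = g ^ 2 * x ^ 2 + A * (2 * x * y * g + y ^ 2 * A) := by
      rw [h1]; ring
    have h5 : (b * (a ^ 2 - 4 * b)) ^ 2 =
        g ^ 2 * x' ^ 2 + N * (2 * x' * y' * g + y' ^ 2 * N) := by
      rw [h2]; ring
    rw [h3, h4, h5]
    refine ⟨4 * x ^ 2 * (g ^ 2 * x' ^ 2 + N * (2 * x' * y' * g + y' ^ 2 * N)) +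
      4 * A * (2 * x * y * g + y ^ 2 * A) * x' ^ 2 +
      w * ((2 * x * y * g + y ^ 2 * A) * (2 * x' * y' * g + y' ^ 2 * N)), ?_⟩
    linear_combination (2 * x * y * g + y ^ 2 * A) * (2 * x' * y' * g + y' ^ 2 * N) * hw'
  refine ⟨A, N, Int.gcd X Z, rfl, ?_, ?_, hgG, ?_, hANpos, ?_, ?_⟩
  · rw [hN]
  · exact Int.gcd_pos_of_ne_zero_right X hZ0
  · rw [hdg]
    have h1 : (Z.natAbs : ℤ) ^ 2 = 4 * ((A * N).natAbs : ℤ) * D ^ 2 := by
      rw [Int.natCast_natAbs, sq_abs, Int.natCast_natAbs, abs_of_pos hANpos, hAN, hZ]; ring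
    rw [hD] at h1
    exact_mod_cast h1
  · have h1 : ((Int.gcd A N : ℕ) : ℤ) ∣ A := Int.gcd_dvd_left A N
    have h2 : ((Int.gcd A N : ℕ) : ℤ) ∣ N := Int.gcd_dvd_right A N
    have h3 : IsCoprime ((Int.gcd A N : ℕ) : ℤ) (D ^ 4) :=
      (IsCoprime.of_isCoprime_of_dvd_left hcop h1).pow_right
    refine h3.dvd_of_dvd_mul_right ?_
    have h4 : b * D ^ 4 = N - A * (A + a * D ^ 2) := by rw [hN]; ring
    rw [h4]
    exact dvd_sub h2 (h1.mul_right _)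
  · have h1 : Y k ^ 2 / u k ^ 2 = Rat.divInt N (A * D ^ 2) := by
      rw [Rat.divInt_eq_div, ← hcurve, hu]
      have hAQ : (A : ℚ) ≠ 0 := by exact_mod_cast hA0
      rw [hN]
      push_cast
      field_simp
    rw [h1]
    exact Rat.num_dvd N (mul_ne_zero hA0 (pow_ne_zero 2 hDZ))

end H51.EF
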