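import Pool.Agent.H51.EF.Num
import Pool.Agent.H51.EF.Dual
import Pool.Agent.H51.EF.Step

/-!
# Prime : the quotients are prime only finitely often (110 lines)

Let `c' d (k+1) = p c (d k)` with `p` prime, `c, c' ∈ {1, 2}`. By `step`, multiplying by `g` and squaring:
`4 c'^2 |A N| d^2 = (c' d (k+1) g)^2 = (p c g)^2 d^2`, so `4 c'^2 |A| |N| = (p c g)^2` (`d k > 0`).
Let `G = |2 b^2 (a^2 - 4 b)| ≥ g`, `G > 0`. If `p ≤ 16 |b|`: `|A| |N| ≤ (p c g)^2 ≤ (32 |b| G)^2`, so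
`|A| ≤ 32 |b| G` or `|N| ≤ 32 |b| G`. If `p > 16 |b|` then `p` does not divide `4 c'^2` (`p > 16`) and does not
divide both `A` and `N` (it would divide `b ≠ 0`), and `p^2 ∣ A N` (coprime to `4 c'^2`), so
`p^2 ∣ A` or `p^2 ∣ N`; in the first case `A = p^2 A'`, `4 c'^2 |A'| |N| = (c g)^2` and `|N| ≤ (2 G)^2`; in the second
case `|A| ≤ (2 G)^2`. So `|num (u k)| ≤ C` or `|num (Y^2/u^2)| ≤ |N| ≤ C` (a nonzero multiple), with
`C = 32 |b| G + 4 G^2`: `num_fin` for `h` and for `dual h`.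
-/

namespace H51.EF

private theorem prime_key {A N p c c' g b G : ℕ} (hp : p.Prime) (hc1 : 1 ≤ c) (hc2 : c ≤ 2)
    (hc1' : 1 ≤ c') (hc2' : c' ≤ 2) (hA : 0 < A) (hN : 0 < N) (hb : 0 < b) (hg : 0 < g)
    (hgG : g ≤ G) (hgcd : ∀ q : ℕ, q ∣ A → q ∣ N → q ∣ b)
    (heq : 4 * c' ^ 2 * (A * N) = (p * c * g) ^ 2) :
    A ≤ 32 * b * G + 4 * G ^ 2 ∨ N ≤ 32 * b * G + 4 * G ^ 2 := by
  by_cases hpb : p ≤ 16 * b
  · have h1 : A * N ≤ (32 * b * G) ^ 2 := by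
      calc A * N ≤ 4 * c' ^ 2 * (A * N) := Nat.le_mul_of_pos_left _ (by positivity)
        _ = (p * c * g) ^ 2 := heq
        _ ≤ (16 * b * 2 * G) ^ 2 := by gcongr
        _ = (32 * b * G) ^ 2 := by ring
    by_contra hcon
    push Not at hcon
    obtain ⟨h2, h3⟩ := hcon
    have h4 : (32 * b * G) ^ 2 < A * N := by
      have h5 : 32 * b * G < A := by omega
      have h6 : 32 * b * G < N := by omega
      calc (32 * b * G) ^ 2 = (32 * b * G) * (32 * b * G) := by ring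
        _ < A * N := by
          exact Nat.mul_lt_mul'' h5 h6
    omega
  · push Not at hpb
    have hp16 : 16 < p := by omega
    have hcop : Nat.Coprime (p ^ 2) (4 * c' ^ 2) := by
      refine Nat.Coprime.pow_left 2 ?_
      rw [hp.coprime_iff_not_dvd]
      intro hd
      have h1 := Nat.le_of_dvd (by positivity) hd
      have h2 : 4 * c' ^ 2 ≤ 4 * 2 ^ 2 := by gcongr
      omega
    have hdv : p ^ 2 ∣ A * N := by
      refine hcop.dvd_of_dvd_mul_left ?_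
      rw [heq]
      exact ⟨(c * g) ^ 2, by ring⟩
    have hnot : ¬ (p ∣ A ∧ p ∣ N) := by
      rintro ⟨h1, h2⟩
      have h3 := Nat.le_of_dvd hb (hgcd p h1 h2)
      omega
    have hcg : (c * g) ^ 2 ≤ 4 * G ^ 2 := by
      calc (c * g) ^ 2 ≤ (2 * G) ^ 2 := by gcongr
        _ = 4 * G ^ 2 := by ring
    have hp2 : 0 < p ^ 2 := by positivity
    by_cases hpA : p ∣ A
    · have hpN : ¬ p ∣ N := fun h => hnot ⟨hpA, h⟩
      have h1 : p ^ 2 ∣ A := by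
        refine (Nat.Coprime.pow_left 2 ((hp.coprime_iff_not_dvd).2 hpN)).dvd_of_dvd_mul_right hdv
      obtain ⟨A', rfl⟩ := h1
      have hA' : 0 < A' := Nat.pos_of_mul_pos_left hA
      right
      have h2 : p ^ 2 * (4 * c' ^ 2 * (A' * N)) = p ^ 2 * (c * g) ^ 2 := by
        calc p ^ 2 * (4 * c' ^ 2 * (A' * N)) = 4 * c' ^ 2 * (p ^ 2 * A' * N) := by ring
          _ = (p * c * g) ^ 2 := heq
          _ = p ^ 2 * (c * g) ^ 2 := by ring
      have h3 := Nat.eq_of_mul_eq_mul_left hp2 h2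
      have h4 : N ≤ 4 * c' ^ 2 * (A' * N) := by
        calc N ≤ A' * N := Nat.le_mul_of_pos_left _ hA'
          _ ≤ 4 * c' ^ 2 * (A' * N) := Nat.le_mul_of_pos_left _ (by positivity)
      omega
    · have h1 : p ^ 2 ∣ N := by
        refine (Nat.Coprime.pow_left 2 ((hp.coprime_iff_not_dvd).2 hpA)).dvd_of_dvd_mul_left hdv
      obtain ⟨N', rfl⟩ := h1
      have hN' : 0 < N' := Nat.pos_of_mul_pos_left hN
      left
      have h2 : p ^ 2 * (4 * c' ^ 2 * (A * N')) = p ^ 2 * (c * g) ^ 2 := by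
        calc p ^ 2 * (4 * c' ^ 2 * (A * N')) = 4 * c' ^ 2 * (A * (p ^ 2 * N')) := by ring
          _ = (p * c * g) ^ 2 := heq
          _ = p ^ 2 * (c * g) ^ 2 := by ring
      have h3 := Nat.eq_of_mul_eq_mul_left hp2 h2
      have h4 : A ≤ 4 * c' ^ 2 * (A * N') := by
        calc A ≤ A * N' := Nat.le_mul_of_pos_right _ hN'
          _ ≤ 4 * c' ^ 2 * (A * N') := Nat.le_mul_of_pos_left _ (by positivity)
      omega

theorem prime_fin {a b : ℤ} {u Y : ℕ → ℚ} (h : Sq a b u Y) {d : ℕ → ℕ}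
    (hd : ∀ k, (u k).den = d k ^ 2) :
    {k : ℕ | ∃ p c c' : ℕ, p.Prime ∧ 1 ≤ c ∧ c ≤ 2 ∧ 1 ≤ c' ∧ c' ≤ 2 ∧
      c' * d (k + 1) = p * c * d k}.Finite := by
  set G : ℕ := (2 * b ^ 2 * (a ^ 2 - 4 * b)).natAbs with hG
  refine ((num_fin h (32 * b.natAbs * G + 4 * G ^ 2)).union
    (num_fin (dual h) (32 * b.natAbs * G + 4 * G ^ 2))).subset ?_
  rintro k ⟨p, c, c', hp, hc1, hc2, hc1', hc2', he⟩
  obtain ⟨A, N, g, hA, hN, hg, hgd, hstep, hpos, hgcd, hnum⟩ := step h hd k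
  have hb0 : 0 < b.natAbs := Int.natAbs_pos.2 h.hb
  have hdk : 0 < d k := by
    have h1 := (u k).den_pos
    rw [hd k] at h1
    exact Nat.pos_of_ne_zero (fun h0 => by rw [h0] at h1; simp at h1)
  have hA0 : 0 < A.natAbs := Int.natAbs_pos.2 (fun h0 => by rw [h0, zero_mul] at hpos; exact lt_irrefl _ hpos)
  have hN0 : 0 < N.natAbs := Int.natAbs_pos.2 (fun h0 => by rw [h0, mul_zero] at hpos; exact lt_irrefl _ hpos)
  have hG0 : 2 * b ^ 2 * (a ^ 2 - 4 * b) ≠ 0 :=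
    mul_ne_zero (mul_ne_zero two_ne_zero (pow_ne_zero 2 h.hb)) h.hab
  have hgG : g ≤ G := Nat.le_of_dvd (Int.natAbs_pos.2 hG0) (Int.natCast_dvd.1 hgd)
  have heq : 4 * c' ^ 2 * (A.natAbs * N.natAbs) = (p * c * g) ^ 2 := by
    have h1 : d k ^ 2 * (4 * c' ^ 2 * (A.natAbs * N.natAbs)) = d k ^ 2 * (p * c * g) ^ 2 := by
      rw [← Int.natAbs_mul]
      calc d k ^ 2 * (4 * c' ^ 2 * (A * N).natAbs) = c' ^ 2 * (4 * (A * N).natAbs * d k ^ 2) := by ring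
        _ = c' ^ 2 * (d (k + 1) * g) ^ 2 := by rw [hstep]
        _ = (c' * d (k + 1)) ^ 2 * g ^ 2 := by ring
        _ = (p * c * d k) ^ 2 * g ^ 2 := by rw [he]
        _ = d k ^ 2 * (p * c * g) ^ 2 := by ring
    exact Nat.eq_of_mul_eq_mul_left (by positivity) h1
  have hq : ∀ q : ℕ, q ∣ A.natAbs → q ∣ N.natAbs → q ∣ b.natAbs := by
    intro q h1 h2
    exact (Nat.dvd_gcd h1 h2).trans (Int.natCast_dvd.1 hgcd)
  rcases prime_key hp hc1 hc2 hc1' hc2' hA0 hN0 hb0 hg hgG hq heq with h1 | h1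
  · left
    change (u k).num.natAbs ≤ _
    rw [← hA]
    exact h1
  · right
    change (Y k ^ 2 / u k ^ 2).num.natAbs ≤ _
    exact (Nat.le_of_dvd hN0 (Int.natAbs_dvd_natAbs.2 hnum)).trans h1

end H51.EF
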