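import Pool.Agent.H51.EF.Appr
import Pool.Agent.H51.EF.Gap

/-!
# Thue : Thue's theorem for the forms `X^4 - b Y^4` (100 lines)

`thue_pos`: let `α = b^(1/4)`, `s₀` with `s₀^4 ≥ (128 C^2)^3` and `≥ 2 C` (assume `C ≥ 1`, otherwise
enlarge it). If there is a solution `(s, d)` in positive integers with `s ≥ s₀`, then `appr` and `gap`
bound `y` for all solutions, and `x^4 ≤ C + b y^4` bounds `x`. Otherwise all solutions have `x < s₀` and
`b y^4 ≤ x^4 + C` bounds `y`.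
`thue`: `b < 0`: `x^4 + |b| y^4 ≤ C`. `b > 0`: the pairs with `x = 0` or `y = 0` are finitely many
(`b y^4 ≤ C`, resp. `x^4 ≤ C`), the others are mapped by `(|x|, |y|)` (fibres of at most four elements) to
`thue_pos`.
-/

namespace H51.EF

private lemma nat_le_pow4 (x : ℕ) : x ≤ x ^ 4 := by
  rcases Nat.eq_zero_or_pos x with h | h
  · rw [h]; norm_num
  · calc x = x ^ 1 := (pow_one x).symm
      _ ≤ x ^ 4 := Nat.pow_le_pow_right h (by norm_num)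

private lemma abs_le_pow4 (x : ℤ) : |x| ≤ x ^ 4 := by
  have h1 : |x| ≤ |x| ^ 4 := by
    have := nat_le_pow4 x.natAbs
    have h2 : ((x.natAbs : ℕ) : ℤ) = |x| := Int.natCast_natAbs x
    rw [← h2]
    exact_mod_cast this
  have h3 : |x| ^ 4 = x ^ 4 := by
    rw [show (4 : ℕ) = 2 * 2 by norm_num, pow_mul, sq_abs, ← pow_mul]
  rwa [h3] at h1

private lemma thue_bd (b : ℤ) (hb : 0 < b) (C : ℤ) :
    ∃ M : ℕ, ∀ x y : ℕ, 0 < x → 0 < y → (x : ℤ) ^ 4 ≠ b * (y : ℤ) ^ 4 →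
      |(x : ℤ) ^ 4 - b * (y : ℤ) ^ 4| ≤ C → x ≤ M ∧ y ≤ M := by
  obtain ⟨K, hK1, hKC⟩ : ∃ K : ℤ, 1 ≤ K ∧ C ≤ K := ⟨max C 1, le_max_right _ _, le_max_left _ _⟩
  obtain ⟨k, rfl⟩ : ∃ k : ℕ, K = k := ⟨K.toNat, (Int.toNat_of_nonneg (by omega)).symm⟩
  have hk1 : 1 ≤ k := by exact_mod_cast hK1
  -- real data
  have hbR : (0 : ℝ) < b := by exact_mod_cast hb
  set α : ℝ := (b : ℝ) ^ ((4 : ℕ) : ℝ)⁻¹ with hα
  have hα0 : 0 < α := Real.rpow_pos_of_pos hbR _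
  have hα4 : α ^ 4 = b := Real.rpow_inv_natCast_pow hbR.le (by norm_num)
  have hkR : (1 : ℝ) ≤ k := by exact_mod_cast hk1
  set s₀ : ℕ := (128 * k ^ 2) ^ 3 with hs₀
  have hs₀1 : 2 * k ≤ s₀ := by
    have h1 : k ≤ k ^ 2 := by nlinarith
    have h2 : 128 * k ^ 2 ≤ (128 * k ^ 2) ^ 3 := Nat.le_self_pow (by norm_num) _
    have h3 : 2 * k ≤ 128 * k ^ 2 := by nlinarith
    exact h3.trans h2
  -- a bound for `x` from a bound for `y`, and conversely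
  have hx : ∀ x y Y : ℕ, |(x : ℤ) ^ 4 - b * (y : ℤ) ^ 4| ≤ C → y ≤ Y →
      x ≤ k + b.toNat * Y ^ 4 := by
    intro x y Y h hy
    have h1 := (abs_le.1 h).2
    have h2 : (y : ℤ) ^ 4 ≤ (Y : ℤ) ^ 4 := by
      exact_mod_cast Nat.pow_le_pow_left hy 4
    have h3 : (x : ℤ) ≤ (x : ℤ) ^ 4 := by exact_mod_cast nat_le_pow4 x
    have h4 : b * (y : ℤ) ^ 4 ≤ b * (Y : ℤ) ^ 4 := mul_le_mul_of_nonneg_left h2 hb.le
    have h5 : (x : ℤ) ≤ k + b * (Y : ℤ) ^ 4 := by linarith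
    have h6 : ((b.toNat : ℕ) : ℤ) = b := Int.toNat_of_nonneg hb.le
    have h7 : (x : ℤ) ≤ ((k + b.toNat * Y ^ 4 : ℕ) : ℤ) := by
      push_cast
      rw [h6]
      exact h5
    exact_mod_cast h7
  have hy : ∀ x y X : ℕ, |(x : ℤ) ^ 4 - b * (y : ℤ) ^ 4| ≤ C → x ≤ X → y ≤ k + X ^ 4 := by
    intro x y X h hx
    have h1 := (abs_le.1 h).1
    have h2 : (x : ℤ) ^ 4 ≤ (X : ℤ) ^ 4 := by
      exact_mod_cast Nat.pow_le_pow_left hx 4
    have h3 : (y : ℤ) ≤ (y : ℤ) ^ 4 := by exact_mod_cast nat_le_pow4 y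
    have h4 : (y : ℤ) ^ 4 ≤ b * (y : ℤ) ^ 4 := by
      have : (0 : ℤ) ≤ (y : ℤ) ^ 4 := by positivity
      nlinarith
    have h5 : (y : ℤ) ≤ ((k + X ^ 4 : ℕ) : ℤ) := by
      push_cast
      linarith
    exact_mod_cast h5
  by_cases hex : ∃ s d : ℕ, 0 < d ∧ s₀ ≤ s ∧ (s : ℤ) ^ 4 ≠ b * (d : ℤ) ^ 4 ∧
      |(s : ℤ) ^ 4 - b * (d : ℤ) ^ 4| ≤ C
  · obtain ⟨s, d, hd, hs, hne, hle⟩ := hex
    have hs0 : 0 < s := by omega
    have hneR : (s : ℝ) ^ 4 ≠ b * (d : ℝ) ^ 4 := by exact_mod_cast hne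
    have hR : ∀ x y : ℕ, |(x : ℤ) ^ 4 - b * (y : ℤ) ^ 4| ≤ C →
        |(x : ℝ) ^ 4 - b * (y : ℝ) ^ 4| ≤ (k : ℝ) := by
      intro x y h
      have h1 : |(x : ℤ) ^ 4 - b * (y : ℤ) ^ 4| ≤ (k : ℤ) := h.trans hKC
      exact_mod_cast h1
    have hsR : ((s₀ : ℕ) : ℝ) ≤ (s : ℝ) ^ 4 := by
      exact_mod_cast hs.trans (nat_le_pow4 s)
    have h2 : 2 * (k : ℝ) ≤ (s : ℝ) ^ 4 := by
      have : (2 * (k : ℝ)) ≤ (s₀ : ℝ) := by exact_mod_cast hs₀1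
      exact this.trans hsR
    have h3 : (128 * (k : ℝ) ^ 2) ^ 3 ≤ (s : ℝ) ^ 4 := by
      refine le_trans (le_of_eq ?_) hsR
      rw [hs₀]
      push_cast
      rfl
    obtain ⟨p, q, hpq⟩ := appr b α k hb hα0 hα4 hkR s d hs0 hd hneR (hR s d hle) h2
    obtain ⟨Y, hY⟩ := gap b α k hb hα0 hα4 hkR s d hs0 hd h3 p q hpq
    refine ⟨(k + b.toNat * Y ^ 4) + Y, fun x y hx0 hy0 _ h => ?_⟩
    have h4 := hY x y hx0 hy0 (hR x y h)
    have h5 := hx x y Y h h4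
    omega
  · refine ⟨s₀ + (k + s₀ ^ 4), fun x y hx0 hy0 hne h => ?_⟩
    have h4 : x ≤ s₀ := by
      by_contra hc
      exact hex ⟨x, y, hy0, by omega, hne, h⟩
    have h5 := hy x y s₀ h h4
    omega

theorem thue_pos (b : ℤ) (hb : 0 < b) (C : ℤ) :
    {p : ℕ × ℕ | 0 < p.1 ∧ 0 < p.2 ∧ (p.1 : ℤ) ^ 4 ≠ b * (p.2 : ℤ) ^ 4 ∧
      |(p.1 : ℤ) ^ 4 - b * (p.2 : ℤ) ^ 4| ≤ C}.Finite := by
  obtain ⟨M, hM⟩ := thue_bd b hb C
  refine ((Set.finite_Iic M).prod (Set.finite_Iic M)).subset ?_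
  rintro ⟨x, y⟩ ⟨h1, h2, h3, h4⟩
  exact hM x y h1 h2 h3 h4

theorem thue (b : ℤ) (hb : b ≠ 0) (C : ℤ) :
    {p : ℤ × ℤ | p.1 ^ 4 ≠ b * p.2 ^ 4 ∧ |p.1 ^ 4 - b * p.2 ^ 4| ≤ C}.Finite := by
  have key : ∃ M : ℤ, ∀ x y : ℤ, x ^ 4 ≠ b * y ^ 4 → |x ^ 4 - b * y ^ 4| ≤ C →
      |x| ≤ M ∧ |y| ≤ M := by
    rcases lt_or_gt_of_ne hb with hneg | hpos
    · refine ⟨C, fun x y _ h => ?_⟩
      have h1 := (abs_le.1 h).2
      have h2 := abs_le_pow4 x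
      have h3 := abs_le_pow4 y
      have h4 : (0 : ℤ) ≤ x ^ 4 := by positivity
      have h5 : (0 : ℤ) ≤ y ^ 4 := by positivity
      have h6 : y ^ 4 ≤ -b * y ^ 4 := by nlinarith
      constructor <;> linarith
    · obtain ⟨M, hM⟩ := thue_bd b hpos C
      refine ⟨M + |C|, fun x y hne h => ?_⟩
      have hC : C ≤ |C| := le_abs_self C
      have hM0 : (0 : ℤ) ≤ M := by positivity
      have h2 := abs_le_pow4 x
      have h3 := abs_le_pow4 y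
      by_cases hx0 : x = 0
      · subst hx0
        have h1 := (abs_le.1 h).1
        have h4 : (0 : ℤ) ≤ y ^ 4 := by positivity
        have h6 : y ^ 4 ≤ b * y ^ 4 := by nlinarith
        constructor
        · rw [abs_zero]; positivity
        · linarith
      · by_cases hy0 : y = 0
        · subst hy0
          have h1 := (abs_le.1 h).2
          constructor
          · linarith
          · rw [abs_zero]; positivity
        · have hx' : ((x.natAbs : ℕ) : ℤ) ^ 4 = x ^ 4 := by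
            rw [Int.natCast_natAbs, show (4 : ℕ) = 2 * 2 by norm_num, pow_mul, sq_abs, ← pow_mul]
          have hy' : ((y.natAbs : ℕ) : ℤ) ^ 4 = y ^ 4 := by
            rw [Int.natCast_natAbs, show (4 : ℕ) = 2 * 2 by norm_num, pow_mul, sq_abs, ← pow_mul]
          obtain ⟨h5, h6⟩ := hM x.natAbs y.natAbs (Int.natAbs_pos.2 hx0) (Int.natAbs_pos.2 hy0)
            (by rw [hx', hy']; exact hne) (by rw [hx', hy']; exact h)
          have h7 : |x| ≤ M := by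
            rw [← Int.natCast_natAbs]; exact_mod_cast h5
          have h8 : |y| ≤ M := by
            rw [← Int.natCast_natAbs]; exact_mod_cast h6
          have h9 : 0 ≤ |C| := abs_nonneg C
          constructor <;> linarith
  obtain ⟨M, hM⟩ := key
  refine ((Set.finite_Icc (-M) M).prod (Set.finite_Icc (-M) M)).subset ?_
  rintro ⟨x, y⟩ ⟨h1, h2⟩
  have h3 := hM x y h1 h2
  exact ⟨abs_le.1 h3.1, abs_le.1 h3.2⟩

end H51.EF
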