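import Pool.Agent.H51.EF.Defs

/-!
# Van : the Vandermonde type identities (140 lines)

For rational `x`, `m ≤ k ≤ 2 m`, the sum
`S = ∑_{j ≤ k} C(2m-j, m) * ch (m-x) j * ch x (k-j)` (`ch = Ring.choose`) is
`∑_{i ≤ m} (-1)^i C(2m-i, m-i) * ch (m-x) i * C(m-i, k-i)`:
(1) for `0 ≤ j ≤ 2 m`: `C(2m-j, m) = ∑_{i ≤ m} (-1)^i C(j, i) C(2m-i, m-i)` (`van_poly`; induction on `j`
    generalising `m`-type parameters, or coefficient of `T^m` in `(1+T)^(2m-j)`; prove the more general
    `C(n-j, r) = ∑_i (-1)^i C(j,i) C(n-i, r-i)` for `j ≤ n` by induction on `j` with Pascal's rule);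
(2) `C(j,i) * ch y j = ch y i * ch (y-i) (j-i)` for `i ≤ j` (`Ring.choose_smul_choose`);
(3) `∑_{j=i}^{k} ch (m-x-i) (j-i) * ch x (k-j) = ch (m-i) (k-i)` (`Ring.add_choose_eq`, `Ring.choose_natCast`).
If `k > m` all `C(m-i, k-i)` vanish: `van_zero`. If `k = m` they are `1` and
`(-1)^(m-i) C(2m-i, m-i) = ch (-m-1) (m-i)` (`Ring.choose_neg`), so the sum is
`(-1)^m ch (m-x-m-1) m = (-1)^m ch (-x-1) m = ch (x+m) m`: `van_top`.
`cq_zero`, `cq_top` are these identities for `x = 1/4` (the signs are `(-1)^j (-1)^(k-j) = (-1)^k`, and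
for `m < j ≤ k ≤ 2m` the coefficient `C(2m-j, m)` is zero, which agrees with the `if`).
-/

namespace H51.EF

private theorem van_gen (j : ℕ) : ∀ n r : ℕ, j ≤ n → ((n - j).choose r : ℚ) =
    ∑ i ∈ Finset.range (r + 1), (-1) ^ i * (j.choose i : ℚ) * ((n - i).choose (r - i) : ℚ) := by
  induction j with
  | zero =>
    intro n r _
    rw [Finset.sum_eq_single 0]
    · simp
    · intro i _ hi
      obtain ⟨i, rfl⟩ := Nat.exists_eq_succ_of_ne_zero hi
      simp
    · intro h
      exact absurd (Finset.mem_range.2 (Nat.succ_pos r)) h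
  | succ j ih =>
    intro n r hn
    cases r with
    | zero => simp
    | succ r =>
      have h1 := ih n (r + 1) (by omega)
      have h2 := ih (n - 1) r (by omega)
      have h3 : ((n - j).choose (r + 1) : ℚ) =
          ((n - (j + 1)).choose r : ℚ) + ((n - (j + 1)).choose (r + 1) : ℚ) := by
        have e : n - j = (n - (j + 1)) + 1 := by omega
        rw [e, Nat.choose_succ_succ]
        push_cast
        rfl
      have h4 : (n - 1) - j = n - (j + 1) := by omega
      rw [h4] at h2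
      have h5 : ((n - (j + 1)).choose (r + 1) : ℚ) =
          ∑ i ∈ Finset.range (r + 1 + 1), (-1) ^ i * (j.choose i : ℚ) *
            ((n - i).choose (r + 1 - i) : ℚ) -
          ∑ i ∈ Finset.range (r + 1), (-1) ^ i * (j.choose i : ℚ) *
            ((n - 1 - i).choose (r - i) : ℚ) := by
        rw [← h1, ← h2, h3]
        ring
      rw [h5, Finset.sum_range_succ' _ (r + 1), Finset.sum_range_succ' _ (r + 1)]
      have h6 : ∑ i ∈ Finset.range (r + 1), (-1 : ℚ) ^ (i + 1) * ((j + 1).choose (i + 1) : ℚ) *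
          ((n - (i + 1)).choose (r + 1 - (i + 1)) : ℚ) =
          ∑ i ∈ Finset.range (r + 1), (-1 : ℚ) ^ (i + 1) * (j.choose (i + 1) : ℚ) *
            ((n - (i + 1)).choose (r + 1 - (i + 1)) : ℚ) -
          ∑ i ∈ Finset.range (r + 1), (-1) ^ i * (j.choose i : ℚ) *
            ((n - 1 - i).choose (r - i) : ℚ) := by
        rw [← Finset.sum_sub_distrib]
        refine Finset.sum_congr rfl fun i _ => ?_
        have e1 : n - (i + 1) = n - 1 - i := by omega
        have e2 : r + 1 - (i + 1) = r - i := by omega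
        rw [Nat.choose_succ_succ, e1, e2]
        push_cast
        ring
      rw [h6]
      simp only [pow_zero, Nat.choose_zero_right, Nat.cast_one]
      ring

theorem van_poly (m j : ℕ) (h : j ≤ 2 * m) : ((2 * m - j).choose m : ℚ) =
    ∑ i ∈ Finset.range (m + 1), (-1) ^ i * (j.choose i : ℚ) * ((2 * m - i).choose (m - i) : ℚ) :=
  van_gen j (2 * m) m h

private theorem van_inner (x y : ℚ) (k i : ℕ) (hi : i ≤ k) :
    ∑ j ∈ Finset.range (k + 1), (j.choose i : ℚ) * Ring.choose y j * Ring.choose x (k - j) =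
      Ring.choose y i * Ring.choose (y - i + x) (k - i) := by
  have h1 : k + 1 = i + (k - i + 1) := by omega
  rw [h1, Finset.sum_range_add]
  have h2 : ∑ j ∈ Finset.range i, (j.choose i : ℚ) * Ring.choose y j * Ring.choose x (k - j) = 0 := by
    refine Finset.sum_eq_zero fun j hj => ?_
    rw [Nat.choose_eq_zero_of_lt (Finset.mem_range.1 hj), Nat.cast_zero, zero_mul, zero_mul]
  rw [h2, zero_add, Ring.add_choose_eq _ (Commute.all _ _),
    Finset.Nat.sum_antidiagonal_eq_sum_range_succ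
      (fun a b => Ring.choose (y - (i : ℚ)) a * Ring.choose x b), Finset.mul_sum]
  refine Finset.sum_congr rfl fun a ha => ?_
  have ha' := Finset.mem_range.1 ha
  have h3 := Ring.choose_smul_choose y (n := i + a) (k := i) (Nat.le_add_right i a)
  rw [nsmul_eq_mul, Nat.add_sub_cancel_left] at h3
  have h4 : k - (i + a) = k - i - a := by omega
  rw [h3, h4, mul_assoc]

private theorem van_main (x : ℚ) (m k : ℕ) (h1 : m ≤ k) (h2 : k ≤ 2 * m) :
    ∑ j ∈ Finset.range (k + 1), ((2 * m - j).choose m : ℚ) * Ring.choose ((m : ℚ) - x) j *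
      Ring.choose x (k - j) =
    ∑ i ∈ Finset.range (m + 1), (-1) ^ i * ((2 * m - i).choose (m - i) : ℚ) *
      Ring.choose ((m : ℚ) - x) i * ((m - i).choose (k - i) : ℚ) := by
  have h3 : ∀ j ∈ Finset.range (k + 1), ((2 * m - j).choose m : ℚ) *
      Ring.choose ((m : ℚ) - x) j * Ring.choose x (k - j) =
      ∑ i ∈ Finset.range (m + 1), (-1) ^ i * ((2 * m - i).choose (m - i) : ℚ) *
        ((j.choose i : ℚ) * Ring.choose ((m : ℚ) - x) j * Ring.choose x (k - j)) := by
    intro j hj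
    rw [van_poly m j (by have := Finset.mem_range.1 hj; omega), Finset.sum_mul, Finset.sum_mul]
    refine Finset.sum_congr rfl fun i _ => ?_
    ring
  rw [Finset.sum_congr rfl h3, Finset.sum_comm]
  refine Finset.sum_congr rfl fun i hi => ?_
  have hi' := Finset.mem_range.1 hi
  rw [← Finset.mul_sum, van_inner x _ k i (by omega)]
  have h4 : (m : ℚ) - x - i + x = ((m - i : ℕ) : ℚ) := by
    rw [Nat.cast_sub (by omega)]
    ring
  rw [h4, Ring.choose_natCast]
  ring

theorem van_zero (x : ℚ) (m k : ℕ) (h1 : m < k) (h2 : k ≤ 2 * m) :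
    ∑ j ∈ Finset.range (k + 1), ((2 * m - j).choose m : ℚ) * Ring.choose ((m : ℚ) - x) j *
      Ring.choose x (k - j) = 0 := by
  rw [van_main x m k h1.le h2]
  refine Finset.sum_eq_zero fun i hi => ?_
  have hi' := Finset.mem_range.1 hi
  rw [Nat.choose_eq_zero_of_lt (show m - i < k - i by omega), Nat.cast_zero, mul_zero]

private theorem van_neg (r : ℚ) (n : ℕ) :
    Ring.choose (-r) n = (-1) ^ n * Ring.choose (r + n - 1) n := by
  rw [Ring.choose_neg]
  rcases Nat.even_or_odd n with h | h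
  · rw [Int.negOnePow_even _ (by exact_mod_cast h), h.neg_one_pow, one_smul, one_mul]
  · rw [Int.negOnePow_odd _ (by exact_mod_cast h), h.neg_one_pow]
    simp

theorem van_top (x : ℚ) (m : ℕ) :
    ∑ j ∈ Finset.range (m + 1), ((2 * m - j).choose m : ℚ) * Ring.choose ((m : ℚ) - x) j *
      Ring.choose x (m - j) = Ring.choose ((m : ℚ) + x) m := by
  rw [van_main x m m le_rfl (by omega)]
  have h1 : ∀ i ∈ Finset.range (m + 1), (-1) ^ i * ((2 * m - i).choose (m - i) : ℚ) *
      Ring.choose ((m : ℚ) - x) i * ((m - i).choose (m - i) : ℚ) =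
      (-1) ^ m * (Ring.choose ((m : ℚ) - x) i * Ring.choose (-((m : ℚ) + 1)) (m - i)) := by
    intro i hi
    have hi' := Finset.mem_range.1 hi
    have e1 : (m : ℚ) + 1 + ((m - i : ℕ) : ℚ) - 1 = ((2 * m - i : ℕ) : ℚ) := by
      rw [Nat.cast_sub (by omega), Nat.cast_sub (by omega)]
      push_cast
      ring
    rw [van_neg, e1, Ring.choose_natCast, Nat.choose_self, Nat.cast_one, mul_one]
    have e2 : (-1 : ℚ) ^ i = (-1) ^ m * (-1) ^ (m - i) := by
      rw [← pow_add]
      have : m + (m - i) = i + 2 * (m - i) := by omega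
      rw [this, pow_add, pow_mul]
      norm_num
    rw [e2]
    ring
  rw [Finset.sum_congr rfl h1, ← Finset.mul_sum,
    ← Finset.Nat.sum_antidiagonal_eq_sum_range_succ
      (fun a b => Ring.choose ((m : ℚ) - x) a * Ring.choose (-((m : ℚ) + 1)) b),
    ← Ring.add_choose_eq _ (Commute.all _ _)]
  have e3 : (m : ℚ) - x + -((m : ℚ) + 1) = -(x + 1) := by ring
  have e4 : x + 1 + (m : ℚ) - 1 = (m : ℚ) + x := by ring
  rw [e3, van_neg, e4, ← mul_assoc, ← mul_pow]
  norm_num

private theorem cq_eq (m k : ℕ) (_h1 : m ≤ k) (h2 : k ≤ 2 * m) : cq m k =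
    8 ^ m * (-1) ^ k * ∑ j ∈ Finset.range (k + 1), ((2 * m - j).choose m : ℚ) *
      Ring.choose ((m : ℚ) - 1 / 4) j * Ring.choose (1 / 4 : ℚ) (k - j) := by
  unfold cq
  rw [Finset.mul_sum]
  refine Finset.sum_congr rfl fun j hj => ?_
  have hj' := Finset.mem_range.1 hj
  have h3 : (if j ≤ m then bq m j else 0) = bq m j := by
    by_cases h : j ≤ m
    · rw [if_pos h]
    · rw [if_neg h, bq, Nat.choose_eq_zero_of_lt (show 2 * m - j < m by omega)]
      simp
  have h4 : (-1 : ℚ) ^ k = (-1) ^ j * (-1) ^ (k - j) := by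
    rw [← pow_add]
    congr 1
    omega
  rw [h3, bq, fq, h4]
  ring

theorem cq_zero (m k : ℕ) (h1 : m < k) (h2 : k ≤ 2 * m) : cq m k = 0 := by
  rw [cq_eq m k h1.le h2, van_zero _ m k h1 h2, mul_zero]

theorem cq_top (m : ℕ) : cq m m = 8 ^ m * ((-1) ^ m * Ring.choose ((m : ℚ) + 1 / 4) m) := by
  rw [cq_eq m m le_rfl (by omega), van_top]
  ring

end H51.EF
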